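import Pool.Agent.H20.SL.Defs

/-!
# Basic facts about trees and heights
-/

set_option autoImplicit false

open Topology Ordinal

namespace Pool.Agent.H20.SL

/-! ## Countable ordinals -/

theorem succ_lt_w1 {o : Ordinal.{0}} (ho : o < ω₁) : Order.succ o < ω₁ :=
  (Cardinal.isSuccLimit_omega 1).succ_lt ho

theorem countable_Iic_w1 {o : Ordinal.{0}} (ho : o < ω₁) : (Set.Iic o).Countable := by
  have h2 : Set.Iic o = Set.Iio (Order.succ o) := by ext; simp
  have h1 := succ_lt_w1 ho
  have h3 : (Order.succ o).card < Cardinal.aleph 1 := by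
    rw [← Cardinal.lt_ord, Cardinal.ord_aleph]
    exact h1
  rw [h2, ← Cardinal.le_aleph0_iff_set_countable, Cardinal.mk_Iio_ordinal]
  rw [← Cardinal.succ_aleph0, Order.lt_succ_iff] at h3
  rw [← Cardinal.lift_aleph0.{1,0}, Cardinal.lift_le]
  exact h3

/-- a countable family of countable ordinals is bounded -/
theorem bdd_w1 {α : Type} [Countable α] (f : α → Ordinal.{0}) (hf : ∀ i, f i < ω₁) :
    ∃ o, o < ω₁ ∧ ∀ i, f i ≤ o :=
  ⟨⨆ i, f i, Ordinal.iSup_lt_omega_one hf, fun i => Ordinal.le_iSup f i⟩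

/-! ## Trees -/

variable {T : Type} [PartialOrder T]

theorem IsTree.wflt (h : IsTree T) : WellFoundedLT T := ⟨h.wf⟩

theorem IsTree.subtype (h : IsTree T) (P : Set T) : IsTree P where
  comp := fun a b t ha hb => h.comp a b t ha hb
  wf := InvImage.wf (fun x : P => (x : T)) h.wf

theorem ht_lt (h : IsTree T) {s t : T} (hst : s < t) : ht h s < ht h t := by
  have : IsWellFounded T (· < ·) := ⟨h.wf⟩
  exact IsWellFounded.rank_lt_of_rel hst

theorem ht_le (h : IsTree T) {s t : T} (hst : s ≤ t) : ht h s ≤ ht h t := by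
  rcases hst.eq_or_lt with rfl | hst
  · exact le_rfl
  · exact (ht_lt h hst).le

/-- every smaller height is attained below `t` -/
theorem exists_ht (h : IsTree T) {t : T} {o : Ordinal.{0}} (ho : o ≤ ht h t) :
    ∃ s, s ≤ t ∧ ht h s = o := by
  have : IsWellFounded T (· < ·) := ⟨h.wf⟩
  induction t using h.wf.induction with
  | _ t ih =>
    rcases ho.eq_or_lt with rfl | ho
    · exact ⟨t, le_rfl, rfl⟩
    · unfold ht at ho
      rw [IsWellFounded.rank_eq] at ho
      obtain ⟨⟨b, hb⟩, hb'⟩ := (Ordinal.lt_iSup_iff).1 ho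
      obtain ⟨s, hs, hs'⟩ := ih b hb (Order.lt_succ_iff.1 hb')
      exact ⟨s, hs.trans hb.le, hs'⟩

/-- comparable elements below a common bound with the same height are equal -/
theorem eq_of_ht (h : IsTree T) {a b t : T} (ha : a ≤ t) (hb : b ≤ t) (hh : ht h a = ht h b) :
    a = b := by
  rcases h.comp a b t ha hb with hab | hab
  · rcases hab.eq_or_lt with rfl | hab
    · rfl
    · exact absurd hh (ht_lt h hab).ne
  · rcases hab.eq_or_lt with rfl | hab
    · rfl
    · exact absurd hh (ht_lt h hab).ne'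

/-- heights order the elements below a common bound -/
theorem le_of_ht (h : IsTree T) {a b t : T} (ha : a ≤ t) (hb : b ≤ t) (hh : ht h a ≤ ht h b) :
    a ≤ b := by
  rcases h.comp a b t ha hb with hab | hab
  · exact hab
  · rcases hab.eq_or_lt with rfl | hab
    · exact le_rfl
    · exact absurd (ht_lt h hab) (not_lt.2 hh)

theorem lt_of_ht (h : IsTree T) {a b t : T} (ha : a ≤ t) (hb : b ≤ t) (hh : ht h a < ht h b) :
    a < b :=
  lt_of_le_of_ne (le_of_ht h ha hb hh.le) fun he => hh.ne (by rw [he])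

/-- levels are antichains -/
theorem level_antichain (h : IsTree T) (o : Ordinal.{0}) :
    IsAntichain (· ≤ ·) {t : T | ht h t = o} := by
  intro a ha b hb hab hle
  exact hab (eq_of_ht h hle le_rfl ((show ht h a = o from ha).trans (show ht h b = o from hb).symm))

/-- heights are countable ordinals if predecessor sets are countable -/
theorem ht_lt_omega_one (h : IsTree T) (hI : ∀ t : T, (Set.Iic t).Countable) (t : T) :
    ht h t < ω₁ := by
  have : IsWellFounded T (· < ·) := ⟨h.wf⟩
  induction t using h.wf.induction with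
  | _ t ih =>
    unfold ht
    rw [IsWellFounded.rank_eq]
    have : Countable {b : T // b < t} :=
      ((hI t).mono fun b (hb : b < t) => hb.le).to_subtype
    refine Ordinal.iSup_lt_omega_one fun b => ?_
    exact succ_lt_w1 (ih b b.2)

/-- if `a ⋖ b` and `y < b` then `y ≤ a` -/
theorem le_of_covBy (h : IsTree T) {a b y : T} (hab : a ⋖ b) (hy : y < b) : y ≤ a := by
  rcases h.comp y a b hy.le hab.1.le with hya | hya
  · exact hya
  · rcases hya.eq_or_lt with rfl | hya
    · exact le_rfl
    · exact absurd hy (hab.2 hya)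

/-- above `p < q` there is a cover of `p` below `q` -/
theorem exists_covBy (h : IsTree T) {p q : T} (hpq : p < q) : ∃ u, p ⋖ u ∧ u ≤ q := by
  obtain ⟨u, ⟨hu1, hu2⟩, hu3⟩ := h.wf.has_min {u | p < u ∧ u ≤ q} ⟨q, hpq, le_rfl⟩
  exact ⟨u, ⟨hu1, fun c hc hc' => hu3 c ⟨hc, hc'.le.trans hu2⟩ hc'⟩, hu2⟩

/-- countably many levels are countable -/
theorem below_countable (h : IsTree T) (hS : Slim T h) {o : Ordinal.{0}} (ho : o < ω₁) :
    {t : T | ht h t ≤ o}.Countable := by
  have h1 : {t : T | ht h t ≤ o} = ⋃ a ∈ Set.Iic o, {t : T | ht h t = a} := by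
    ext t
    simp
  rw [h1]
  refine Set.Countable.biUnion ?_ fun a _ => hS.2 a
  exact countable_Iic_w1 ho

end Pool.Agent.H20.SL
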