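import Pool.Agent.H20.SL.Suslin

/-!
# Restriction of compact open sets, and the family of path functions
-/

set_option autoImplicit false

open Topology Ordinal Set

namespace Pool.Agent.H20.SL

variable {T : Type} [PartialOrder T]

/-- heights in downward closed subsets -/
theorem ht_sub (h : IsTree T) (V : Set T) (hV : ∀ a ∈ V, ∀ b, b ≤ a → b ∈ V) (x : V) :
    ht (h.subtype V) x = ht h (x : T) := by
  induction x using (h.subtype V).wf.induction with
  | _ x ih =>
    have i1 : IsWellFounded T (· < ·) := ⟨h.wf⟩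
    have i2 : IsWellFounded V (· < ·) := ⟨(h.subtype V).wf⟩
    have e1 : ht (h.subtype V) x = ⨆ b : {b : V // b < x}, Order.succ (ht (h.subtype V) b) :=
      IsWellFounded.rank_eq (r := ((· < ·) : V → V → Prop)) x
    have e2 : ht h (x : T) = ⨆ b : {b : T // b < (x : T)}, Order.succ (ht h (b : T)) :=
      IsWellFounded.rank_eq (r := ((· < ·) : T → T → Prop)) (x : T)
    rw [e1, e2]
    apply le_antisymm
    · refine Ordinal.iSup_le fun b => ?_
      rw [ih b b.2]
      exact Ordinal.le_iSup (fun b : {b : T // b < (x : T)} => Order.succ (ht h (b : T)))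
        ⟨(b : V), b.2⟩
    · refine Ordinal.iSup_le fun b => ?_
      have hbV : (b : T) ∈ V := hV x x.2 _ b.2.le
      have := ih ⟨(b : T), hbV⟩ b.2
      rw [← this]
      exact Ordinal.le_iSup (fun b : {b : V // b < x} => Order.succ (ht (h.subtype V) b))
        ⟨⟨(b : T), hbV⟩, b.2⟩

/-- restriction of compact open sets to closed downward closed subsets -/
theorem co_sub (h : IsTree T) (V : Set T) (hV : ∀ a ∈ V, ∀ b, b ≤ a → b ∈ V)
    (hVc : ∀ z, LimTy z → (∀ s, s < z → s ∈ V) → z ∈ V) {c : T → Bool} (hc : CO c) :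
    CO fun x : V => c (x : T) := by
  classical
  constructor
  · obtain ⟨E, hE⟩ := hc.1
    have key : ∀ t : T, ∃ v : Option V, ∀ x : V, (x : T) ≤ t → ∃ w ∈ v, x ≤ w := by
      intro t
      by_cases hex : ∃ x : V, (x : T) ≤ t
      · by_cases htV : t ∈ V
        · exact ⟨some ⟨t, htV⟩, fun x hx => ⟨⟨t, htV⟩, rfl, hx⟩⟩
        · obtain ⟨z, ⟨hz1, hz2⟩, hz3⟩ := h.wf.has_min {z | z ≤ t ∧ z ∉ V} ⟨t, le_rfl, htV⟩
          have hzs : ∀ s, s < z → s ∈ V := by
            intro s hs
            by_contra hsV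
            exact hz3 s ⟨hs.le.trans hz1, hsV⟩ hs
          have hlt : ∀ x : V, (x : T) ≤ t → (x : T) < z := by
            intro x hx
            rcases h.comp (x : T) z t hx hz1 with h1 | h1
            · exact lt_of_le_of_ne h1 fun hE => hz2 (hE ▸ x.2)
            · exact absurd (hV x x.2 z h1) hz2
          obtain ⟨x0, hx0⟩ := hex
          have hnl : ¬ LimTy z := fun hl => hz2 (hVc z hl hzs)
          have h2 : ∃ s, s < z ∧ ∀ s', s < s' → ¬ s' < z := by
            by_contra hcon
            push Not at hcon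
            exact hnl ⟨⟨_, hlt x0 hx0⟩, fun s hs => by
              obtain ⟨s', h3, h4⟩ := hcon s hs
              exact ⟨s', h3, h4⟩⟩
          obtain ⟨s, hs, hs'⟩ := h2
          have hcov : s ⋖ z := ⟨hs, fun c hc hc' => hs' c hc hc'⟩
          exact ⟨some ⟨s, hzs s hs⟩, fun x hx => ⟨⟨s, hzs s hs⟩, rfl,
            le_of_covBy h hcov (hlt x hx)⟩⟩
      · exact ⟨none, fun x hx => absurd ⟨x, hx⟩ hex⟩
    choose v hv using key
    refine ⟨E.biUnion fun t => (v t).toFinset, ?_⟩
    intro x hx
    obtain ⟨t, ht, hxt⟩ := hE x hx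
    obtain ⟨w, hw, hxw⟩ := hv t x hxt
    refine ⟨w, ?_, hxw⟩
    rw [Finset.mem_biUnion]
    exact ⟨t, ht, by simpa using hw⟩
  · intro t htl
    have htl' : LimTy (t : T) := by
      refine ⟨?_, ?_⟩
      · obtain ⟨s, hs⟩ := htl.1
        exact ⟨(s : T), hs⟩
      · intro s hs
        obtain ⟨s', h1, h2⟩ := htl.2 ⟨s, hV t t.2 s hs.le⟩ hs
        exact ⟨(s' : T), h1, h2⟩
    obtain ⟨s, hs, hs'⟩ := hc.2 t htl'
    exact ⟨⟨s, hV t t.2 s hs.le⟩, hs, fun x hx hx' => hs' x hx hx'⟩

theorem fam_xt (h : IsTree T) (hH : Haus T) (hF : FB T) : Fam (XT T) := by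
  classical
  have hL := lin2 T h hF
  let Φ : (T → ℝ) → XT T → ℝ := fun φ x =>
    if hx : ∃ a : T, x = inc a then φ hx.choose else 0
  have hΦ : Continuous Φ := by
    refine continuous_pi fun x => ?_
    by_cases hx : ∃ a : T, x = inc a
    · simp only [Φ, dif_pos hx]
      exact continuous_apply _
    · simp only [Φ, dif_neg hx]
      exact continuous_const
  have hΦinc : ∀ (φ : T → ℝ) (a : T), Φ φ (inc a) = φ a := by
    intro φ a
    have hex : ∃ b : T, inc a = inc b := ⟨a, rfl⟩
    simp only [Φ, dif_pos hex]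
    congr 1
    exact (inc_injective hex.choose_spec).symm
  have hΦinf : ∀ φ : T → ℝ, Φ φ OnePoint.infty = 0 := by
    intro φ
    have hex : ¬ ∃ a : T, (OnePoint.infty : XT T) = inc a := by
      rintro ⟨a, ha⟩
      exact OnePoint.infty_ne_coe _ ha
    simp only [Φ, dif_neg hex]
  have hcases : ∀ x : XT T, x = OnePoint.infty ∨ ∃ a : T, x = inc a := by
    intro x
    induction x using OnePoint.rec with
    | infty => exact Or.inl rfl
    | coe a => exact Or.inr ⟨a, rfl⟩
  have hchi : ∀ a : T, Φ (pf a) = chi a := by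
    intro a
    funext x
    rcases hcases x with rfl | ⟨b, rfl⟩
    · rw [hΦinf, chi_infty]
    · rw [hΦinc, chi_inc]
  have hself : ∀ a : T, chi a (inc a) = 1 := by
    intro a
    rw [chi_inc]
    rcases pf_apply a a with ⟨h1, -⟩ | ⟨-, h2⟩
    · exact h1
    · exact absurd le_rfl h2
  refine ⟨Φ '' (insert (0 : T → ℝ) (Set.range fun t : T => (Set.Iic t).indicator (1 : T → ℝ))),
    hL.image hΦ, ?_, ?_⟩
  · rintro _ ⟨φ, rfl | ⟨a, rfl⟩, rfl⟩
    · have : Φ 0 = fun _ => 0 := by
        funext x
        rcases hcases x with rfl | ⟨b, rfl⟩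
        · exact hΦinf _
        · rw [hΦinc]
          rfl
      rw [this]
      exact continuous_const
    · show Continuous (Φ (pf a))
      rw [hchi a]
      exact chi_continuous h hH _
  · intro x y hxy
    have key : ∀ a : T, chi a x ≠ chi a y → ∃ f ∈ Φ '' (insert (0 : T → ℝ)
          (Set.range fun t : T => (Set.Iic t).indicator (1 : T → ℝ))), f x ≠ f y := by
      intro a ha
      refine ⟨Φ (pf a), ⟨pf a, Or.inr ⟨a, rfl⟩, rfl⟩, ?_⟩
      rw [hchi a]
      exact ha
    rcases hcases x with rfl | ⟨a, rfl⟩ <;> rcases hcases y with rfl | ⟨b, rfl⟩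
    · exact absurd rfl hxy
    · refine key b ?_
      rw [chi_infty, hself]
      norm_num
    · refine key a ?_
      rw [chi_infty, hself]
      norm_num
    · have hab : a ≠ b := fun hE => hxy (by rw [hE])
      have main : ∀ a b : T, ¬ b ≤ a → chi a (inc a) ≠ chi a (inc b) := by
        intro a b hba
        rw [hself, chi_inc]
        rcases pf_apply a b with ⟨-, h2⟩ | ⟨h1, -⟩
        · exact absurd h2 hba
        · rw [h1]
          norm_num
      by_cases hba : b ≤ a
      · exact key b (main b a fun h' => hab (le_antisymm h' hba)).symm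
      · exact key a (main a b hba)

end Pool.Agent.H20.SL
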