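import Pool.Agent.H20.SL.Basic

/-!
# General trees, the Cantor tree, and consequences of CH (MP_bff2e5_gt): definitions and targets
-/

set_option autoImplicit false

open Topology Ordinal Cardinal Filter

namespace Pool.Agent.H20.SL

/-- every downward closed, finitely branching set with only finitely many minimal elements is
countable -/
def FB (P : Type) [PartialOrder P] : Prop := ∀ W : Set P, (∀ a ∈ W, ∀ b, b ≤ a → b ∈ W) →
  (∀ w ∈ W, {u | w ⋖ u ∧ u ∈ W}.Finite) → {m | m ∈ W ∧ IsMin m}.Finite → W.Countable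

/-- an uncountable set of binary sequences such that, for every partition of `ℕ` into intervals
and both values `b`, all but countably many members of the set avoid the value `b` on one of the
intervals -/
def BiUnb (X : Set (ℕ → Bool)) : Prop := ¬ X.Countable ∧ ∀ g : ℕ → ℕ, StrictMono g → ∀ b : Bool,
  {x | x ∈ X ∧ ∀ k, ∃ n, g k ≤ n ∧ n < g (k + 1) ∧ x n = b}.Countable

/-! ## Targets -/

/-- LIN2: the path functions form a Lindelof space -/
def T_LIN2 : Prop := ∀ (P : Type) [PartialOrder P], IsTree P → FB P →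
  IsLindelof (insert (0 : P → ℝ) (Set.range fun t : P => (Set.Iic t).indicator (1 : P → ℝ)))

/-- CTD: a finitely branching tree with a countable downward closed set which has uncountably many
limits -/
def T_CTD : Prop := ∀ (T : Type) [PartialOrder T], IsTree T → Haus T →
  (∀ t : T, {u | t ⋖ u}.Finite) → ∀ D : Set T, D.Countable → (∀ a ∈ D, ∀ b, b ≤ a → b ∈ D) →
  ¬ {t : T | LimTy t ∧ t ∉ D ∧ ∀ s, s < t → s ∈ D}.Countable → ∀ 𝒞 : Set (T → Bool),
  IsLindelof 𝒞 → (∀ c ∈ 𝒞, CO c) → ¬ ∀ t, ∃ c ∈ 𝒞, c t = true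

/-- CAN: the Cantor tree with a bi-unbounded set of branches -/
def T_CAN : Prop := ∀ X : Set (ℕ → Bool), BiUnb X → ∃ (T : Type) (_ : PartialOrder T)
  (A B : Set T), IsTree T ∧ Haus T ∧ (∀ t : T, (Set.Iic t).Countable) ∧
    IsClosed (X := TT T) A ∧ IsClosed (X := TT T) B ∧ (∀ t, t ∈ A ∨ t ∈ B) ∧ FB A ∧ FB B ∧ ¬ FB T

/-- BIU: a dominating family of size at most `ℵ₁` gives a bi-unbounded set -/
def T_BIU : Prop := ∀ D : Set (ℕ → ℕ), (∀ f : ℕ → ℕ, ∃ g ∈ D, ∀ᶠ n in atTop, f n ≤ g n) →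
  #D ≤ ℵ₁ → ∃ X, BiUnb X

/-- LUS: Lusin sets are bi-unbounded -/
def T_LUS : Prop := ∀ X : Set (ℕ → Bool), ¬ X.Countable →
  (∀ C : Set (ℕ → Bool), IsNowhereDense C → (X ∩ C).Countable) → BiUnb X

end Pool.Agent.H20.SL
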