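import Pool.Agent.H20.SL.Char
import Pool.Agent.H20.SL.Defs2

/-!
# Hausdorff trees of height at most `ω₁`: the compact space embeds in `C_p(Lindelof)` iff finitely
branching subtrees are countable
-/

set_option autoImplicit false

open Topology Ordinal Set

namespace Pool.Agent.H20.SL

variable {T : Type} [PartialOrder T]

/-- finitely branching uncountable trees have no covering Lindelof family of compact open sets -/
theorem ctg (hCT : T_CT) (hCTD : T_CTD) (h : IsTree T) (hH : Haus T)
    (hI : ∀ t : T, (Set.Iic t).Countable) (hmin : {m : T | IsMin m}.Countable)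
    (hunc : ¬ Countable T) (hfb : ∀ t : T, {u | t ⋖ u}.Finite) (C : Set (T → Bool))
    (hC : IsLindelof C) (hCO : ∀ c ∈ C, CO c) : ¬ ∀ t, ∃ c ∈ C, c t = true := by
  by_cases hS : Slim T h
  · exact hCT T h hH hS hunc hfb C hC hCO
  have hex : ∃ o : Ordinal.{0}, ¬ {t : T | ht h t = o}.Countable := by
    by_contra hcon
    push Not at hcon
    exact hS ⟨hI, hcon⟩
  obtain ⟨o, ho, homin⟩ := Ordinal.lt_wf.has_min {o : Ordinal.{0} | ¬ {t : T | ht h t = o}.Countable}
    hex
  have ho : ¬ {t : T | ht h t = o}.Countable := ho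
  have hlt : ∀ o', o' < o → {t : T | ht h t = o'}.Countable := by
    intro o' ho'
    by_contra hcon
    exact homin o' hcon ho'
  have hne : ∃ t : T, ht h t = o := by
    by_contra hcon
    push Not at hcon
    apply ho
    convert Set.countable_empty
    ext t
    simpa using hcon t
  have how : o < ω₁ := by
    obtain ⟨t, ht'⟩ := hne
    rw [← ht']
    exact ht_lt_omega_one h hI t
  let D : Set T := {t | ht h t < o}
  have hD : D.Countable := by
    have h1 : D = ⋃ a ∈ Set.Iio o, {t : T | ht h t = a} := by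
      ext t
      simp [D]
    rw [h1]
    refine Set.Countable.biUnion ?_ fun a ha => hlt a ha
    exact (countable_Iic_w1 how).mono Set.Iio_subset_Iic_self
  have hDdown : ∀ a ∈ D, ∀ b, b ≤ a → b ∈ D := fun a ha b hb => (ht_le h hb).trans_lt ha
  -- `o` is a limit
  have ho0 : o ≠ 0 := by
    rintro rfl
    apply ho
    refine hmin.mono ?_
    intro t ht' b hb
    rcases hb.eq_or_lt with hE | hlt'
    · exact hE.ge
    · have h1 := ht_lt h hlt'
      rw [show ht h t = 0 from ht'] at h1
      exact absurd h1 (not_lt.2 bot_le)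
  have hosucc : ∀ p, p < o → Order.succ p < o := by
    intro p hp
    refine lt_of_le_of_ne (Order.succ_le_of_lt hp) ?_
    intro hE
    apply ho
    have h1 : {t : T | ht h t = o} ⊆ ⋃ u ∈ {t : T | ht h t = p}, {v : T | u ⋖ v} := by
      intro t ht'
      have ht'' : ht h t = o := ht'
      obtain ⟨u, hu, hu'⟩ := exists_ht h (t := t) (o := p) (by rw [ht'']; exact hp.le)
      have hut : u < t := by
        refine lt_of_le_of_ne hu ?_
        rintro rfl
        rw [hu'] at ht''
        exact hp.ne ht''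
      simp only [Set.mem_iUnion]
      refine ⟨u, hu', hut, ?_⟩
      intro c hc hc'
      have h2 := Order.succ_le_of_lt (ht_lt h hc)
      rw [hu', hE] at h2
      have h3 := ht_lt h hc'
      rw [ht''] at h3
      exact absurd h3 (not_lt.2 h2)
    exact (Set.Countable.biUnion (hlt p hp) fun u _ => (hfb u).countable).mono h1
  refine hCTD T h hH hfb D hD hDdown ?_ C hC hCO
  intro hcon
  apply ho
  refine hcon.mono ?_
  intro t ht'
  have ht'' : ht h t = o := ht'
  refine ⟨⟨?_, ?_⟩, ?_, ?_⟩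
  · obtain ⟨s, hs, hs'⟩ := exists_ht h (t := t) (o := 0) (by rw [ht'']; exact bot_le)
    refine ⟨s, lt_of_le_of_ne hs ?_⟩
    rintro rfl
    exact ho0 (ht''.symm.trans hs')
  · intro s hs
    have h1 : ht h s < o := ht'' ▸ ht_lt h hs
    have h2 := hosucc _ h1
    obtain ⟨s', hs', hs''⟩ := exists_ht h (t := t) (o := Order.succ (ht h s))
      (by rw [ht'']; exact h2.le)
    refine ⟨s', lt_of_ht h hs.le hs' (by rw [hs'']; exact Order.lt_succ _), ?_⟩
    refine lt_of_le_of_ne hs' ?_
    rintro rfl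
    rw [hs''] at ht''
    exact h2.ne ht''
  · intro h1
    exact absurd ht'' (ne_of_lt h1)
  · intro s hs
    have h1 := ht_lt h hs
    rw [ht''] at h1
    exact h1

theorem fb_of_inCp (hCL : T_CL) (hCT : T_CT) (hCTD : T_CTD) (h : IsTree T) (hH : Haus T)
    (hI : ∀ t : T, (Set.Iic t).Countable) (hin : InCpLindelof (XT T)) : FB T := by
  intro W hdown hfin hWmin
  by_contra hunc
  let V : Set T := W ∪ {x | LimTy x ∧ ∀ s, s < x → s ∈ W}
  have hVW : ∀ a ∈ V, ∀ s, s < a → s ∈ W := by
    rintro a (ha | ha) s hs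
    · exact hdown a ha s hs.le
    · exact ha.2 s hs
  have hV : ∀ a ∈ V, ∀ b, b ≤ a → b ∈ V := by
    intro a ha b hb
    rcases hb.eq_or_lt with rfl | hb
    · exact ha
    · exact Or.inl (hVW a ha b hb)
  have hVc : ∀ z, LimTy z → (∀ s, s < z → s ∈ V) → z ∈ V := by
    intro z hz hzs
    refine Or.inr ⟨hz, fun s hs => ?_⟩
    obtain ⟨s', h1, h2⟩ := hz.2 s hs
    exact hVW s' (hzs s' h2) s h1
  have hlim : ∀ x : V, LimTy x → LimTy (x : T) := by
    intro x hx
    refine ⟨?_, ?_⟩
    · obtain ⟨s, hs⟩ := hx.1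
      exact ⟨(s : T), hs⟩
    · intro s hs
      obtain ⟨s', h1, h2⟩ := hx.2 ⟨s, hV x x.2 s hs.le⟩ hs
      exact ⟨(s' : T), h1, h2⟩
  have hT := h.subtype V
  have hHV : Haus V := by
    intro x y hx hxy
    refine Subtype.ext (hH x y (hlim x hx) fun s => ⟨fun hs => ?_, fun hs => ?_⟩)
    · exact (hxy ⟨s, hV x x.2 s hs.le⟩).1 hs
    · exact (hxy ⟨s, hV y y.2 s hs.le⟩).2 hs
  have hIV : ∀ t : V, (Set.Iic t).Countable := by
    intro t
    have h1 : Set.Iic t ⊆ (fun a : V => (a : T)) ⁻¹' (Set.Iic (t : T)) := fun a ha => ha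
    exact ((hI (t : T)).preimage Subtype.val_injective).mono h1
  have huncV : ¬ Countable V := by
    intro hc
    exact hunc ((Set.countable_coe_iff.1 hc).mono Set.subset_union_left)
  have hfb : ∀ t : V, {u : V | t ⋖ u}.Finite := by
    intro t
    by_cases htW : (t : T) ∈ W
    · refine Set.Finite.of_finite_image (f := fun u : V => (u : T))
        ((hfin t htW).subset ?_) Subtype.val_injective.injOn
      rintro _ ⟨u, hu, rfl⟩
      have hcov : (t : T) ⋖ (u : T) := by
        refine ⟨hu.1, fun c hc hc' => ?_⟩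
        exact hu.2 (c := ⟨c, hV u u.2 c hc'.le⟩) hc hc'
      refine ⟨hcov, ?_⟩
      rcases u.2 with h1 | h1
      · exact h1
      · obtain ⟨s', h2, h3⟩ := h1.1.2 t hu.1
        exact absurd h3 (hcov.2 h2)
    · have h0 : {u : V | t ⋖ u} = ∅ := by
        apply Set.eq_empty_iff_forall_notMem.2
        intro u hu
        exact htW (hVW u u.2 t hu.1)
      rw [h0]
      exact Set.finite_empty
  have hmin : {m : V | IsMin m}.Countable := by
    have hsub : ((fun m : V => (m : T)) '' {m : V | IsMin m}) ⊆ {m | m ∈ W ∧ IsMin m} := by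
      rintro _ ⟨m, hm, rfl⟩
      have hmT : IsMin (m : T) := by
        intro b hb
        exact hm (b := ⟨b, hV m m.2 b hb⟩) hb
      refine ⟨?_, hmT⟩
      rcases m.2 with h1 | h1
      · exact h1
      · obtain ⟨s, hs⟩ := h1.1.1
        exact absurd (hmT hs.le) (not_le_of_gt hs)
    exact Set.countable_of_injective_of_countable_image Subtype.val_injective.injOn
      (hWmin.countable.mono hsub)
  obtain ⟨L, hL, hLc, hLs⟩ := exists_family hin
  obtain ⟨C, hC, hCO, hcov⟩ := hCL T h hH hI L hL hLc fun t =>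
    hLs _ _ (OnePoint.coe_ne_infty t)
  refine ctg hCT hCTD hT hHV hIV hmin huncV hfb ((fun c : T → Bool => fun x : V => c (x : T)) '' C)
    (hC.image ?_) ?_ ?_
  · exact continuous_pi fun x => continuous_apply (x : T)
  · rintro _ ⟨c, hc, rfl⟩
    exact co_sub h V hV hVc (hCO c hc)
  · intro t
    obtain ⟨c, hc, hct⟩ := hcov t
    exact ⟨_, ⟨c, hc, rfl⟩, hct⟩

/-- the characterisation -/
theorem inCp_iff2 (hCL : T_CL) (hCT : T_CT) (hCTD : T_CTD) (h : IsTree T) (hH : Haus T)
    (hI : ∀ t : T, (Set.Iic t).Countable) : InCpLindelof (XT T) ↔ FB T := by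
  refine ⟨fb_of_inCp hCL hCT hCTD h hH hI, fun hF => ?_⟩
  obtain ⟨L, hL, hLc, hLs⟩ := fam_xt h hH hF
  exact inCpLindelof_of (emb L hL hLc hLs)

/-- closed covers by two sets -/
theorem two_closed (hCL : T_CL) (hCT : T_CT) (hCTD : T_CTD) (hpos : ArhangelskiiPositive)
    (h : IsTree T) (hH : Haus T) (hI : ∀ t : T, (Set.Iic t).Countable) (A B : Set T)
    (hA : IsClosed (X := TT T) A) (hB : IsClosed (X := TT T) B) (hAB : ∀ t, t ∈ A ∨ t ∈ B)
    (hFA : FB A) (hFB : FB B) : FB T :=
  fb_of_inCp hCL hCT hCTD h hH hI (union_image h hH A B hA hB hAB hFA hFB hpos)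

end Pool.Agent.H20.SL
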