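import Mathlib

/-!
# Trees and compact subspaces of function spaces over Lindelof spaces (MP_bff2e5_gt): definitions
-/

set_option autoImplicit false

open Topology

namespace Pool.Agent.H20.SL

/-- a partially ordered set in which the elements below any element form a chain and `<` is
well-founded, i.e. a tree -/
structure IsTree (T : Type) [PartialOrder T] : Prop where
  comp : ∀ a b t : T, a ≤ t → b ≤ t → a ≤ b ∨ b ≤ a
  wf : WellFounded ((· < ·) : T → T → Prop)

/-- `x` is a limit node -/
def LimTy {T : Type} [PartialOrder T] (x : T) : Prop :=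
  (∃ s, s < x) ∧ ∀ s, s < x → ∃ s', s < s' ∧ s' < x

/-- limit nodes are determined by their predecessors -/
def Haus (T : Type) [PartialOrder T] : Prop :=
  ∀ x y : T, LimTy x → (∀ s, s < x ↔ s < y) → x = y

/-- Suslin's hypothesis for trees: every tree without uncountable chains and without uncountable
antichains is countable -/
def SuslinHypothesis : Prop := ∀ (S : Type) [PartialOrder S], IsTree S →
  (∀ C : Set S, IsChain (· ≤ ·) C → C.Countable) →
  (∀ A : Set S, IsAntichain (· ≤ ·) A → A.Countable) → Countable S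

/-- the height of an element -/
noncomputable def ht {T : Type} [PartialOrder T] (h : IsTree T) (t : T) : Ordinal.{0} :=
  @IsWellFounded.rank T (· < ·) ⟨h.wf⟩ t

/-- all predecessor sets and all levels are countable (so the height is at most `ω₁`) -/
def Slim (T : Type) [PartialOrder T] (h : IsTree T) : Prop :=
  (∀ t : T, (Set.Iic t).Countable) ∧ ∀ o : Ordinal.{0}, {t : T | ht h t = o}.Countable

/-- `T` with its tree topology: neighbourhoods of `t` are the sets containing an interval
`{x | x ≤ t, ¬ x ≤ s}` for some `s < t` (the set of all `x ≤ t` if there is no `s < t`) -/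
def TT (T : Type) : Type := T

instance {T : Type} [PartialOrder T] : TopologicalSpace (TT T) where
  IsOpen U := ∀ t : T, (t : TT T) ∈ U → ∃ F : Finset T, (∀ s ∈ F, s < t) ∧
    ∀ x : T, x ≤ t → (∀ s ∈ F, ¬ x ≤ s) → (x : TT T) ∈ U
  isOpen_univ := fun _ _ => ⟨∅, by simp, fun _ _ _ => trivial⟩
  isOpen_inter := by
    classical
    intro U V hU hV t ht
    obtain ⟨F, hF, hF'⟩ := hU t ht.1
    obtain ⟨G, hG, hG'⟩ := hV t ht.2
    refine ⟨F ∪ G, ?_, ?_⟩
    · intro s hs
      rcases Finset.mem_union.1 hs with hs | hs
      · exact hF s hs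
      · exact hG s hs
    · intro x hx hxs
      exact ⟨hF' x hx fun s hs => hxs s (Finset.mem_union_left _ hs),
        hG' x hx fun s hs => hxs s (Finset.mem_union_right _ hs)⟩
  isOpen_sUnion := by
    intro S hS t ht
    obtain ⟨U, hU, htU⟩ := ht
    obtain ⟨F, hF, hF'⟩ := hS U hU t htU
    exact ⟨F, hF, fun x hx hxs => ⟨U, hU, hF' x hx hxs⟩⟩

/-- the one-point compactification of the tree `T` with its tree topology -/
abbrev XT (T : Type) : Type := OnePoint (TT T)

/-- `X` is homeomorphic to a subspace of `C_p(Z)` for some Lindelof space `Z` -/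
def InCpLindelof (X : Type) [TopologicalSpace X] : Prop :=
  ∃ (Z : Type) (_ : TopologicalSpace Z), LindelofSpace Z ∧
    ∃ e : X → {f : Z → ℝ // Continuous f}, IsEmbedding e

/-- `X` is homeomorphic to a subspace of `C_p(Y)` for some Tychonoff Lindelof space `Y` -/
def InCpTychonoffLindelof (X : Type) [TopologicalSpace X] : Prop :=
  ∃ (Y : Type) (_ : TopologicalSpace Y), T35Space Y ∧ LindelofSpace Y ∧
    ∃ e : X → {f : Y → ℝ // Continuous f}, IsEmbedding e

/-- a positive answer to Arhangel'skii's question (weakened: the given space is Tychonoff, the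
space to be found is only Lindelof) -/
def ArhangelskiiPositive : Prop := ∀ (X X₁ : Type) [TopologicalSpace X] [TopologicalSpace X₁],
  CompactSpace X → T2Space X → InCpTychonoffLindelof X → T2Space X₁ →
    (∃ g : X → X₁, Continuous g ∧ Function.Surjective g) → InCpLindelof X₁

/-- a Suslin tree in normal form: every node `p` has the immediate successors `child p 0`,
`child p 1`, … -/
structure NTree (N : Type) [PartialOrder N] (child : N → ℕ → N) : Prop where
  tree : IsTree N
  haus : Haus N
  child_iff : ∀ p q, p < q ↔ ∃ k, child p k ≤ q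
  child_inj : ∀ p k k' q, child p k ≤ q → child p k' ≤ q → k = k'
  anti : ∀ A : Set N, IsAntichain (· ≤ ·) A → A.Countable
  unc : ¬ Countable N

/-! ## Targets -/

/-- downward closed sets in which every element has only finitely many immediate successors are
countable -/
def FinBr (P : Type) [PartialOrder P] : Prop := ∀ W : Set P, (∀ a ∈ W, ∀ b, b ≤ a → b ∈ W) →
  (∀ w ∈ W, {u | w ⋖ u ∧ u ∈ W}.Finite) → W.Countable

/-- LIN: the path functions form a Lindelof space -/
def T_LIN : Prop := ∀ (P : Type) [PartialOrder P] (h : IsTree P), Slim P h → FinBr P →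
  IsLindelof (insert (0 : P → ℝ) (Set.range fun t : P => (Set.Iic t).indicator (1 : P → ℝ)))

/-- a family of compact open subsets of the tree: `c` is supported by finitely many chains and
continuous at limit nodes -/
def CO {T : Type} [PartialOrder T] (c : T → Bool) : Prop :=
  (∃ E : Finset T, ∀ x, c x = true → ∃ t ∈ E, x ≤ t) ∧
    ∀ t, LimTy t → ∃ s, s < t ∧ ∀ x, s < x → x ≤ t → c x = c t

/-- CL: from separating Lindelof families of functions to covering Lindelof families of compact
open sets -/
def T_CL : Prop := ∀ (T : Type) [PartialOrder T], IsTree T → Haus T →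
  (∀ t : T, (Set.Iic t).Countable) → ∀ L : Set (XT T → ℝ), IsLindelof L →
  (∀ f ∈ L, Continuous f) → (∀ t : TT T, ∃ f ∈ L, f (t : XT T) ≠ f OnePoint.infty) →
  ∃ 𝒞 : Set (T → Bool), IsLindelof 𝒞 ∧ (∀ c ∈ 𝒞, CO c) ∧ ∀ t, ∃ c ∈ 𝒞, c t = true

/-- CT: an uncountable finitely branching slim tree has no covering Lindelof family of compact
open sets -/
def T_CT : Prop := ∀ (T : Type) [PartialOrder T] (h : IsTree T), Haus T → Slim T h →
  ¬ Countable T → (∀ t : T, {u | t ⋖ u}.Finite) → ∀ 𝒞 : Set (T → Bool), IsLindelof 𝒞 →
  (∀ c ∈ 𝒞, CO c) → ¬ ∀ t, ∃ c ∈ 𝒞, c t = true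

/-- NORM: normal form of Suslin trees -/
def T_NORM : Prop := ∀ (S : Type) [PartialOrder S], IsTree S →
  (∀ C : Set S, IsChain (· ≤ ·) C → C.Countable) →
  (∀ A : Set S, IsAntichain (· ≤ ·) A → A.Countable) → ¬ Countable S →
  ∃ (N : Type) (_ : PartialOrder N) (child : N → ℕ → N), NTree N child

end Pool.Agent.H20.SL
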