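import Pool.Agent.H20.SL.Char2

/-!
# Consequences of a positive answer
-/

set_option autoImplicit false

open Topology Ordinal Cardinal Filter

namespace Pool.Agent.H20.SL

theorem no_biunb (hCL : T_CL) (hCT : T_CT) (hCTD : T_CTD) (hCAN : T_CAN)
    (hpos : ArhangelskiiPositive) (X : Set (ℕ → Bool)) : ¬ BiUnb X := by
  intro hX
  obtain ⟨T, hPO, A, B, hT, hH, hI, hA, hB, hAB, hFA, hFB, hnF⟩ := hCAN X hX
  exact hnF (two_closed hCL hCT hCTD hpos hT hH hI A B hA hB hAB hFA hFB)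

theorem dominating_large (hCL : T_CL) (hCT : T_CT) (hCTD : T_CTD) (hCAN : T_CAN) (hBIU : T_BIU)
    (hpos : ArhangelskiiPositive) (D : Set (ℕ → ℕ))
    (hD : ∀ f : ℕ → ℕ, ∃ g ∈ D, ∀ᶠ n in atTop, f n ≤ g n) : ℵ₁ < #D := by
  by_contra hcon
  obtain ⟨X, hX⟩ := hBIU D hD (not_lt.1 hcon)
  exact no_biunb hCL hCT hCTD hCAN hpos X hX

theorem no_lusin (hCL : T_CL) (hCT : T_CT) (hCTD : T_CTD) (hCAN : T_CAN) (hLUS : T_LUS)
    (hpos : ArhangelskiiPositive) (X : Set (ℕ → Bool))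
    (hX : ∀ C : Set (ℕ → Bool), IsNowhereDense C → (X ∩ C).Countable) : X.Countable := by
  by_contra hcon
  exact no_biunb hCL hCT hCTD hCAN hpos X (hLUS X hcon hX)

theorem suslin (hCL : T_CL) (hCT : T_CT) (hNORM : T_NORM) (hpos : ArhangelskiiPositive) :
    SuslinHypothesis := by
  intro S _ hS hch hanti
  by_contra hcon
  obtain ⟨N, hPO, child, hN⟩ := hNORM S hS hch hanti hcon
  exact not_positive hCL hCT hN hpos

end Pool.Agent.H20.SL
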