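import Pool.Agent.H20.SL.Basic

/-!
# LIN: the path functions of a slim tree without large finitely branching subtrees form a
Lindelof space
-/

set_option autoImplicit false

open Topology Ordinal Set

namespace Pool.Agent.H20.SL

variable {P : Type} [PartialOrder P]

/-- the characteristic function of the elements below `t` -/
noncomputable def pf (t : P) : P → ℝ := (Set.Iic t).indicator (1 : P → ℝ)

theorem pf_apply (t x : P) : pf t x = 1 ∧ x ≤ t ∨ pf t x = 0 ∧ ¬ x ≤ t := by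
  classical
  unfold pf
  by_cases h : x ≤ t
  · left
    exact ⟨by simp [Set.indicator, h], h⟩
  · right
    exact ⟨by simp [Set.indicator, h], h⟩

theorem pf_congr {s t x : P} (h : x ≤ s ↔ x ≤ t) : pf s x = pf t x := by
  rcases pf_apply s x with ⟨h1, h2⟩ | ⟨h1, h2⟩ <;> rcases pf_apply t x with ⟨h3, h4⟩ | ⟨h3, h4⟩
  · rw [h1, h3]
  · exact absurd (h.1 h2) h4
  · exact absurd (h.2 h4) h2
  · rw [h1, h3]

omit [PartialOrder P] in
/-- basic neighbourhoods in the product topology -/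
theorem exists_finset_nhd {U : Set (P → ℝ)} (hU : IsOpen U) {f : P → ℝ} (hf : f ∈ U) :
    ∃ F : Finset P, ∀ g : P → ℝ, (∀ x ∈ F, g x = f x) → g ∈ U := by
  rw [isOpen_pi_iff] at hU
  obtain ⟨F, u, hu, hsub⟩ := hU f hf
  refine ⟨F, fun g hg => hsub ?_⟩
  intro x hx
  rw [hg x hx]
  exact (hu x hx).2

theorem lin : T_LIN := by
  classical
  intro P _ h hS hW
  have hI := hS.1
  rw [isLindelof_iff_countable_subcover]
  intro ι U hU hcov
  -- the sets of indices
  let Cd : Set P → Prop := fun A => ∃ r : Set ι, r.Countable ∧ ∀ t ∈ A, ∃ i ∈ r, pf t ∈ U i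
  have hCd_iUnion : ∀ (κ : Type) (s : Set κ) (A : κ → Set P), s.Countable → (∀ k ∈ s, Cd (A k)) →
      Cd (⋃ k ∈ s, A k) := by
    intro κ s A hs hA
    choose! r hr hr' using hA
    refine ⟨⋃ k ∈ s, r k, hs.biUnion fun k hk => hr k hk, ?_⟩
    intro t ht
    simp only [Set.mem_iUnion] at ht
    obtain ⟨k, hk, htk⟩ := ht
    obtain ⟨i, hi, hti⟩ := hr' k hk t htk
    exact ⟨i, Set.mem_biUnion hk hi, hti⟩
  have hCd_union : ∀ A B : Set P, Cd A → Cd B → Cd (A ∪ B) := by
    rintro A B ⟨r, hr, hr'⟩ ⟨q, hq, hq'⟩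
    refine ⟨r ∪ q, hr.union hq, ?_⟩
    rintro t (ht | ht)
    · obtain ⟨i, hi, hti⟩ := hr' t ht
      exact ⟨i, Or.inl hi, hti⟩
    · obtain ⟨i, hi, hti⟩ := hq' t ht
      exact ⟨i, Or.inr hi, hti⟩
  have hCd_mono : ∀ A B : Set P, A ⊆ B → Cd B → Cd A := by
    rintro A B hAB ⟨r, hr, hr'⟩
    exact ⟨r, hr, fun t ht => hr' t (hAB ht)⟩
  have hpfmem : ∀ t : P, ∃ i, pf t ∈ U i := by
    intro t
    have : pf t ∈ insert (0 : P → ℝ) (Set.range fun t : P => (Set.Iic t).indicator (1 : P → ℝ)) :=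
      Or.inr ⟨t, rfl⟩
    simpa using hcov this
  have hCd_sing : ∀ t : P, Cd {t} := by
    intro t
    obtain ⟨i, hi⟩ := hpfmem t
    exact ⟨{i}, Set.countable_singleton _, by rintro s rfl; exact ⟨i, rfl, hi⟩⟩
  -- bad elements
  let W : Set P := {t | ¬ Cd (Set.Ici t)}
  have hWdown : ∀ a ∈ W, ∀ b, b ≤ a → b ∈ W := by
    intro a ha b hb hC
    exact ha (hCd_mono _ _ (Set.Ici_subset_Ici.2 hb) hC)
  have hWfin : ∀ w ∈ W, {u | w ⋖ u ∧ u ∈ W}.Finite := by
    intro w hw
    obtain ⟨i, hi⟩ := hpfmem w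
    obtain ⟨F, hF⟩ := exists_finset_nhd (hU i) hi
    -- covers of `w` in `W` are below elements of `F`
    have key : ∀ u, w ⋖ u → u ∈ W → ∃ x ∈ F, u ≤ x := by
      intro u hu huW
      by_contra hcon
      push Not at hcon
      refine huW ⟨{i}, Set.countable_singleton _, ?_⟩
      intro s hs
      refine ⟨i, rfl, hF _ ?_⟩
      intro x hx
      refine pf_congr ⟨fun hxs => ?_, fun hxw => (hxw.trans hu.1.le).trans hs⟩
      rcases h.comp x u s hxs hs with hxu | hux
      · rcases hxu.eq_or_lt with rfl | hxu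
        · exact absurd le_rfl (hcon x hx)
        · exact le_of_covBy h hu hxu
      · exact absurd hux (hcon x hx)
    -- each element of `F` is above at most one cover
    have hinj : ∀ u, (w ⋖ u ∧ u ∈ W) → ∃ x, x ∈ F ∧ u ≤ x := fun u hu => key u hu.1 hu.2
    choose! g hg using hinj
    refine Set.Finite.of_finite_image (f := g) (F.finite_toSet.subset ?_) ?_
    · rintro _ ⟨u, hu, rfl⟩
      exact (hg u hu).1
    · intro u hu v hv huv
      have h1 := (hg u hu).2
      have h2 := (hg v hv).2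
      rw [← huv] at h2
      rcases h.comp u v _ h1 h2 with huv' | huv'
      · rcases huv'.eq_or_lt with hE | hE
        · exact hE
        · exact absurd hE (hv.1.2 hu.1.1)
      · rcases huv'.eq_or_lt with hE | hE
        · exact hE.symm
        · exact absurd hE (hu.1.2 hv.1.1)
  have hWc : W.Countable := hW W hWdown hWfin
  -- minimal elements outside `W`
  let M : Set P := {m | m ∉ W ∧ ∀ s, s < m → s ∈ W}
  have hMc : M.Countable := by
    have : Countable W := hWc.to_subtype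
    obtain ⟨o, ho, ho'⟩ := bdd_w1 (fun w : W => ht h (w : P)) fun w => ht_lt_omega_one h hI _
    refine (below_countable h hS (succ_lt_w1 ho)).mono ?_
    intro m hm
    show ht h m ≤ Order.succ o
    have : IsWellFounded P (· < ·) := ⟨h.wf⟩
    unfold ht
    rw [IsWellFounded.rank_eq]
    refine Ordinal.iSup_le fun b => ?_
    exact Order.succ_le_succ (ho' ⟨b, hm.2 b b.2⟩)
  -- everything is covered
  have hall : Cd Set.univ := by
    have h1 : Cd (⋃ w ∈ W, {w}) := hCd_iUnion P W _ hWc fun w _ => hCd_sing w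
    have h2 : Cd (⋃ m ∈ M, Set.Ici m) := hCd_iUnion P M _ hMc fun m hm => by
      have := hm.1
      simpa [W] using this
    refine hCd_mono _ _ ?_ (hCd_union _ _ h1 h2)
    intro t _
    by_cases ht : t ∈ W
    · left
      simp only [Set.mem_iUnion]
      exact ⟨t, ht, rfl⟩
    · right
      obtain ⟨m, ⟨hm1, hm2⟩, hm3⟩ := h.wf.has_min {m | m ∉ W ∧ m ≤ t} ⟨t, ht, le_rfl⟩
      simp only [Set.mem_iUnion]
      refine ⟨m, ⟨hm1, fun s hs => ?_⟩, hm2⟩
      by_contra hsW
      exact hm3 s ⟨hsW, hs.le.trans hm2⟩ hs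
  obtain ⟨r, hr, hr'⟩ := hall
  have h0 : ∃ i, (0 : P → ℝ) ∈ U i := by
    have : (0 : P → ℝ) ∈ insert (0 : P → ℝ)
        (Set.range fun t : P => (Set.Iic t).indicator (1 : P → ℝ)) := Or.inl rfl
    simpa using hcov this
  obtain ⟨i0, hi0⟩ := h0
  refine ⟨insert i0 r, hr.insert i0, ?_⟩
  rintro f (rfl | ⟨t, rfl⟩)
  · exact Set.mem_biUnion (Set.mem_insert _ _) hi0
  · obtain ⟨i, hi, hti⟩ := hr' t trivial
    exact Set.mem_biUnion (Set.mem_insert_of_mem _ hi) hti

end Pool.Agent.H20.SL
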