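import Pool.Agent.H20.SL.Defs2
import Pool.Agent.H20.SL.LIN

/-!
# LIN2: the path functions of a tree without uncountable finitely branching subtrees form a
Lindelof space
-/

set_option autoImplicit false

open Topology Ordinal Set

namespace Pool.Agent.H20.SL

theorem lin2 : T_LIN2 := by
  classical
  intro P _ h hW
  rw [isLindelof_iff_countable_subcover]
  intro ι U hU hcov
  have hpfmem : ∀ t : P, ∃ i, pf t ∈ U i := by
    intro t
    have : pf t ∈ insert (0 : P → ℝ) (Set.range fun t : P => (Set.Iic t).indicator (1 : P → ℝ)) :=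
      Or.inr ⟨t, rfl⟩
    simpa using hcov this
  have h0mem : ∃ i, (0 : P → ℝ) ∈ U i := by
    have : (0 : P → ℝ) ∈ insert (0 : P → ℝ)
      (Set.range fun t : P => (Set.Iic t).indicator (1 : P → ℝ)) := Or.inl rfl
    simpa using hcov this
  obtain ⟨i0, hi0⟩ := h0mem
  obtain ⟨F0, hF0⟩ := exists_finset_nhd (hU i0) hi0
  choose i hi using hpfmem
  have hFex : ∀ t : P, ∃ F : Finset P, ∀ g : P → ℝ, (∀ x ∈ F, g x = pf t x) → g ∈ U (i t) :=
    fun t => exists_finset_nhd (hU (i t)) (hi t)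
  choose F hF using hFex
  -- minimal elements
  have hmin : ∀ t : P, ∃ m, IsMin m ∧ m ≤ t := by
    intro t
    obtain ⟨m, hm1, hm2⟩ := h.wf.has_min {m | m ≤ t} ⟨t, le_rfl⟩
    refine ⟨m, fun b hb => ?_, hm1⟩
    rcases hb.eq_or_lt with hE | hlt
    · exact hE.ge
    · exact absurd hlt (hm2 b (hb.trans hm1))
  -- the reached nodes
  let R : Set P := {t | (∃ x ∈ F0, ∃ m, IsMin m ∧ m ≤ t ∧ m ≤ x) ∧
    ∀ s, s < t → ∃ x ∈ F s, ∃ u, s ⋖ u ∧ u ≤ t ∧ u ≤ x}
  have hroot : ∀ t b m x : P, b ≤ t → IsMin m → m ≤ t → m ≤ b := by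
    intro t b m x hb hm hmt
    rcases h.comp m b t hmt hb with h1 | h1
    · exact h1
    · exact hm h1
  have hRdown : ∀ a ∈ R, ∀ b, b ≤ a → b ∈ R := by
    rintro a ⟨⟨x, hx, m, hm, hma, hmx⟩, ha⟩ b hb
    refine ⟨⟨x, hx, m, hm, hroot a b m x hb hm hma, hmx⟩, ?_⟩
    intro s hs
    obtain ⟨y, hy, u, hu, hua, huy⟩ := ha s (hs.trans_le hb)
    refine ⟨y, hy, u, hu, ?_, huy⟩
    rcases h.comp u b a hua hb with h1 | h1
    · exact h1
    · rcases h1.eq_or_lt with h2 | h2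
      · exact h2.ge
      · exact absurd h2 (hu.2 hs)
  have hRfin : ∀ w ∈ R, {u | w ⋖ u ∧ u ∈ R}.Finite := by
    intro w hw
    have hinj : ∀ u, (w ⋖ u ∧ u ∈ R) → ∃ x, x ∈ F w ∧ u ≤ x := by
      rintro u ⟨hwu, hu⟩
      obtain ⟨x, hx, u', hu', hu'u, hu'x⟩ := hu.2 w hwu.1
      rcases hu'u.eq_or_lt with hE | hlt
      · exact ⟨x, hx, hE ▸ hu'x⟩
      · exact absurd hlt (hwu.2 hu'.1)
    choose! g hg using hinj
    refine Set.Finite.of_finite_image (f := g) ((F w).finite_toSet.subset ?_) ?_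
    · rintro _ ⟨u, hu, rfl⟩
      exact (hg u hu).1
    · intro u hu v hv huv
      have h1 := (hg u hu).2
      have h2 := (hg v hv).2
      rw [← huv] at h2
      rcases h.comp u v _ h1 h2 with huv' | huv'
      · rcases huv'.eq_or_lt with hE | hE
        · exact hE
        · exact absurd hE (hv.1.2 hu.1.1)
      · rcases huv'.eq_or_lt with hE | hE
        · exact hE.symm
        · exact absurd hE (hu.1.2 hv.1.1)
  have hRmin : {m | m ∈ R ∧ IsMin m}.Finite := by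
    have hinj : ∀ m, (m ∈ R ∧ IsMin m) → ∃ x, x ∈ F0 ∧ m ≤ x := by
      rintro m ⟨⟨⟨x, hx, m', hm', hm'm, hm'x⟩, -⟩, hm⟩
      exact ⟨x, hx, (hm hm'm).trans hm'x⟩
    choose! g hg using hinj
    refine Set.Finite.of_finite_image (f := g) (F0.finite_toSet.subset ?_) ?_
    · rintro _ ⟨u, hu, rfl⟩
      exact (hg u hu).1
    · intro u hu v hv huv
      have h1 := (hg u hu).2
      have h2 := (hg v hv).2
      rw [← huv] at h2
      rcases h.comp u v _ h1 h2 with huv' | huv'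
      · exact le_antisymm huv' (hv.2 huv')
      · exact le_antisymm (hu.2 huv') huv'
  have hRc : R.Countable := hW R hRdown hRfin hRmin
  refine ⟨insert i0 (i '' R), (hRc.image i).insert i0, ?_⟩
  have hcase : ∀ s : P, ∃ j ∈ insert i0 (i '' R), pf s ∈ U j := by
    intro s
    by_cases hsR : s ∈ R
    · exact ⟨i s, Or.inr ⟨s, hsR, rfl⟩, hi s⟩
    by_cases hroots : ∃ x ∈ F0, ∃ m, IsMin m ∧ m ≤ s ∧ m ≤ x
    · -- a failing predecessor
      have hfail : ∃ t, t < s ∧ ¬ ∃ x ∈ F t, ∃ u, t ⋖ u ∧ u ≤ s ∧ u ≤ x := by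
        by_contra hcon
        push Not at hcon
        exact hsR ⟨hroots, fun t ht => hcon t ht⟩
      obtain ⟨t, ⟨hts, htf⟩, htmin⟩ := h.wf.has_min
        {t | t < s ∧ ¬ ∃ x ∈ F t, ∃ u, t ⋖ u ∧ u ≤ s ∧ u ≤ x} hfail
      have htR : t ∈ R := by
        obtain ⟨x, hx, m, hm, hms, hmx⟩ := hroots
        refine ⟨⟨x, hx, m, hm, hroot s t m x hts.le hm hms, hmx⟩, ?_⟩
        intro r hr
        have h1 : ∃ x ∈ F r, ∃ u, r ⋖ u ∧ u ≤ s ∧ u ≤ x := by
          by_contra hcon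
          exact htmin r ⟨hr.trans hts, hcon⟩ hr
        obtain ⟨y, hy, u, hu, hus, huy⟩ := h1
        refine ⟨y, hy, u, hu, ?_, huy⟩
        rcases h.comp u t s hus hts.le with h2 | h2
        · exact h2
        · rcases h2.eq_or_lt with h3 | h3
          · exact h3.ge
          · exact absurd h3 (hu.2 hr)
      refine ⟨i t, Or.inr ⟨t, htR, rfl⟩, hF t _ ?_⟩
      intro x hx
      refine pf_congr ⟨fun hxs => ?_, fun hxt => hxt.trans hts.le⟩
      rcases h.comp x t s hxs hts.le with h1 | h1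
      · exact h1
      · rcases h1.eq_or_lt with h2 | h2
        · exact h2.ge
        · obtain ⟨u, hu, hux⟩ := exists_covBy h h2
          exact absurd ⟨x, hx, u, hu, hux.trans hxs, hux⟩ htf
    · refine ⟨i0, Or.inl rfl, hF0 _ ?_⟩
      intro x hx
      rcases pf_apply s x with ⟨-, h2⟩ | ⟨h1, -⟩
      · exfalso
        obtain ⟨m, hm, hmx⟩ := hmin x
        exact hroots ⟨x, hx, m, hm, hmx.trans h2, hmx⟩
      · rw [h1]
        rfl
  rintro f (rfl | ⟨t, rfl⟩)
  · exact Set.mem_biUnion (Or.inl rfl) hi0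
  · obtain ⟨j, hj, hjt⟩ := hcase t
    exact Set.mem_biUnion hj hjt

end Pool.Agent.H20.SL
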