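import Pool.Agent.H20.SL.Basic

/-!
# The binary tree of a normal Suslin tree
-/

set_option autoImplicit false

open Topology Ordinal Set

namespace Pool.Agent.H20.SL

/-! ## General facts -/

section General

variable {P : Type} [PartialOrder P]

/-- with countable antichains and infinitely many covers everywhere, finitely branching subtrees
are countable -/
theorem finBr_of (h : IsTree P) (hA : ∀ A : Set P, IsAntichain (· ≤ ·) A → A.Countable)
    (hc : ∀ w : P, {u | w ⋖ u}.Infinite) : FinBr P := by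
  intro W hdown hfin
  have h1 : ∀ w ∈ W, ∃ u, w ⋖ u ∧ u ∉ W := by
    intro w hw
    by_contra hcon
    push Not at hcon
    refine hc w ((hfin w hw).subset ?_)
    intro u hu
    exact ⟨hu, hcon u hu⟩
  choose! g hg hg' using h1
  -- comparabilities
  have key : ∀ w ∈ W, ∀ v ∈ W, g w ≤ g v → w = v := by
    intro w hw v hv hle
    rcases h.comp w v (g v) ((hg w hw).1.le.trans hle) (hg v hv).1.le with hwv | hvw
    · rcases hwv.eq_or_lt with hE | hlt
      · exact hE
      · exfalso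
        -- `g w ≤ v` or `v < g w`
        rcases h.comp (g w) v (g v) hle (hg v hv).1.le with h1 | h1
        · exact hg' w hw (hdown v hv _ h1)
        · rcases h1.eq_or_lt with h2 | h2
          · exact hg' w hw (h2 ▸ hv)
          · exact (hg w hw).2 hlt h2
    · rcases hvw.eq_or_lt with hE | hlt
      · exact hE.symm
      · exfalso
        exact (hg v hv).2 hlt ((hg w hw).1.trans_le hle)
  have hanti : IsAntichain (· ≤ ·) (g '' W) := by
    rintro _ ⟨w, hw, rfl⟩ _ ⟨v, hv, rfl⟩ hne hle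
    exact hne (by rw [key w hw v hv hle])
  have hinj : Set.InjOn g W := fun w hw v hv he => key w hw v hv he.le
  exact Set.countable_of_injective_of_countable_image hinj (hA _ hanti)

theorem slim_of (h : IsTree P) (hI : ∀ t : P, (Set.Iic t).Countable)
    (hA : ∀ A : Set P, IsAntichain (· ≤ ·) A → A.Countable) : Slim P h :=
  ⟨hI, fun o => hA _ (level_antichain h o)⟩

end General

/-! ## The tree -/

/-- nodes `(p, n)` -/
@[ext] structure Sh (N : Type) where
  p : N
  n : ℕ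

variable {N : Type} [PartialOrder N] {child : N → ℕ → N}

theorem NTree.lt_child (hN : NTree N child) (p : N) (k : ℕ) : p < child p k :=
  (hN.child_iff p _).2 ⟨k, le_rfl⟩

/-- the order of the binary tree -/
@[instance_reducible] def shOrder (hN : NTree N child) : PartialOrder (Sh N) where
  le x y := (x.p = y.p ∧ x.n ≤ y.n) ∨ ∃ k, x.n ≤ k ∧ child x.p k ≤ y.p
  le_refl x := Or.inl ⟨rfl, le_rfl⟩
  le_trans x y z := by
    rintro (⟨h1, h2⟩ | ⟨k, h1, h2⟩) (⟨h3, h4⟩ | ⟨l, h3, h4⟩)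
    · exact Or.inl ⟨h1.trans h3, h2.trans h4⟩
    · exact Or.inr ⟨l, h2.trans h3, h1 ▸ h4⟩
    · exact Or.inr ⟨k, h1, h3 ▸ h2⟩
    · refine Or.inr ⟨k, h1, h2.trans ?_⟩
      exact (hN.lt_child y.p l).le.trans h4
  le_antisymm x y := by
    rintro (⟨h1, h2⟩ | ⟨k, h1, h2⟩) (⟨h3, h4⟩ | ⟨l, h3, h4⟩)
    · exact Sh.ext h1 (le_antisymm h2 h4)
    · exact absurd (h1 ▸ h4) (not_le_of_gt (hN.lt_child y.p l))
    · exact absurd (h3 ▸ h2) (not_le_of_gt (hN.lt_child x.p k))
    · exact absurd ((hN.lt_child x.p k).trans_le (h2.trans ((hN.lt_child y.p l).le.trans h4)))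
        (lt_irrefl _)

section

variable (hN : NTree N child)

include hN

theorem sh_le_iff {x y : Sh N} : (shOrder hN).le x y ↔
    (x.p = y.p ∧ x.n ≤ y.n) ∨ ∃ k, x.n ≤ k ∧ child x.p k ≤ y.p := Iff.rfl

theorem sh_le_p {x y : Sh N} (h : (shOrder hN).le x y) : x.p ≤ y.p := by
  rcases h with ⟨h1, -⟩ | ⟨k, -, h2⟩
  · exact h1.le
  · exact (hN.lt_child x.p k).le.trans h2

theorem sh_lt_iff {x y : Sh N} : (shOrder hN).lt x y ↔
    (x.p = y.p ∧ x.n < y.n) ∨ ∃ k, x.n ≤ k ∧ child x.p k ≤ y.p := by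
  let _ := shOrder hN
  show x < y ↔ _
  rw [lt_iff_le_not_ge]
  constructor
  · rintro ⟨h1 | h1, h2⟩
    · refine Or.inl ⟨h1.1, ?_⟩
      by_contra hcon
      exact h2 (Or.inl ⟨h1.1.symm, not_lt.1 hcon⟩)
    · exact Or.inr h1
  · rintro (h1 | ⟨k, h1, h2⟩)
    · refine ⟨Or.inl ⟨h1.1, h1.2.le⟩, ?_⟩
      rintro (⟨-, h4⟩ | ⟨l, h3, h4⟩)
      · omega
      · exact absurd (h1.1 ▸ h4) (not_le_of_gt (hN.lt_child y.p l))
    · refine ⟨Or.inr ⟨k, h1, h2⟩, ?_⟩
      rintro (⟨h3, h4⟩ | ⟨l, h3, h4⟩)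
      · exact absurd (h3 ▸ h2) (not_le_of_gt (hN.lt_child x.p k))
      · exact absurd ((hN.lt_child x.p k).trans_le (h2.trans ((hN.lt_child y.p l).le.trans h4)))
          (lt_irrefl _)

theorem sh_tree : @IsTree (Sh N) (shOrder hN) := by
  let _ := shOrder hN
  constructor
  · intro x y t hx hy
    have hxp := sh_le_p hN hx
    have hyp := sh_le_p hN hy
    have main : ∀ x y : Sh N, x ≤ t → y ≤ t → x.p < y.p → x ≤ y := by
      intro x y hx hy hlt
      obtain ⟨k, hk⟩ := (hN.child_iff _ _).1 hlt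
      have hyp := sh_le_p hN hy
      rcases hx with ⟨h1, -⟩ | ⟨l, h1, h2⟩
      · exact absurd (hlt.trans_le hyp) (by rw [h1]; exact lt_irrefl _)
      · have := hN.child_inj x.p l k t.p h2 (hk.trans hyp)
        subst this
        exact Or.inr ⟨l, h1, hk⟩
    rcases hN.tree.comp x.p y.p t.p hxp hyp with h1 | h1
    · rcases h1.eq_or_lt with h2 | h2
      · rcases le_total x.n y.n with h3 | h3
        · exact Or.inl (Or.inl ⟨h2, h3⟩)
        · exact Or.inr (Or.inl ⟨h2.symm, h3⟩)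
      · exact Or.inl (main x y hx hy h2)
    · rcases h1.eq_or_lt with h2 | h2
      · rcases le_total x.n y.n with h3 | h3
        · exact Or.inl (Or.inl ⟨h2.symm, h3⟩)
        · exact Or.inr (Or.inl ⟨h2, h3⟩)
      · exact Or.inr (main y x hy hx h2)
  · have hwf : WellFounded (Prod.Lex ((· < ·) : N → N → Prop) ((· < ·) : ℕ → ℕ → Prop)) :=
      WellFounded.prod_lex hN.tree.wf Nat.lt_wfRel.wf
    refine Subrelation.wf (r := InvImage (Prod.Lex ((· < ·) : N → N → Prop)
      ((· < ·) : ℕ → ℕ → Prop)) fun x : Sh N => (x.p, x.n)) ?_ (InvImage.wf _ hwf)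
    intro x y hxy
    rcases (sh_lt_iff hN).1 hxy with ⟨h1, h2⟩ | ⟨k, -, h2⟩
    · show Prod.Lex _ _ (x.p, x.n) (y.p, y.n)
      rw [h1]
      exact Prod.Lex.right _ h2
    · exact Prod.Lex.left _ _ ((hN.lt_child x.p k).trans_le h2)

theorem sh_covBy_succ (p : N) (n : ℕ) : @CovBy (Sh N) (shOrder hN).toLT ⟨p, n⟩ ⟨p, n + 1⟩ := by
  let _ := shOrder hN
  refine ⟨(sh_lt_iff hN).2 (Or.inl ⟨rfl, Nat.lt_succ_self n⟩), ?_⟩
  intro c hc hc'
  rcases (sh_lt_iff hN).1 hc with ⟨h1, h2⟩ | ⟨k, h1, h2⟩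
  · rcases (sh_lt_iff hN).1 hc' with ⟨h3, h4⟩ | ⟨l, h3, h4⟩
    · simp only at h2 h4
      omega
    · have : p < p := by
        calc p = c.p := h1
          _ < child c.p l := hN.lt_child _ _
          _ ≤ p := h4
      exact lt_irrefl _ this
  · have h5 := sh_le_p hN hc'.le
    exact absurd ((hN.lt_child p k).trans_le (h2.trans h5)) (lt_irrefl _)

theorem sh_covBy_child (p : N) (n : ℕ) :
    @CovBy (Sh N) (shOrder hN).toLT ⟨p, n⟩ ⟨child p n, 0⟩ := by
  let _ := shOrder hN
  refine ⟨(sh_lt_iff hN).2 (Or.inr ⟨n, le_rfl, le_rfl⟩), ?_⟩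
  intro c hc hc'
  rcases (sh_lt_iff hN).1 hc' with ⟨h3, h4⟩ | ⟨l, h3, h4⟩
  · simp at h4
  · -- `child c.p l ≤ child p n`
    rcases (sh_lt_iff hN).1 hc with ⟨h1, h2⟩ | ⟨k, h1, h2⟩
    · simp only at h1 h2 h4
      subst h1
      have := hN.child_inj c.p l n (child c.p n) h4 le_rfl
      omega
    · simp only at h1 h2 h4
      have h5 : child p k ≤ child p n := h2.trans ((hN.lt_child c.p l).le.trans h4)
      have h6 := hN.child_inj p k n (child p n) h5 le_rfl
      subst h6
      exact absurd ((hN.lt_child c.p l).trans_le (h4.trans h2)) (lt_irrefl _)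

/-- above `(p, n)` there are only two minimal nodes -/
theorem sh_above {x y : Sh N} (hxy : (shOrder hN).lt x y) :
    (shOrder hN).le ⟨x.p, x.n + 1⟩ y ∨ (shOrder hN).le ⟨child x.p x.n, 0⟩ y := by
  rcases (sh_lt_iff hN).1 hxy with ⟨h1, h2⟩ | ⟨k, h1, h2⟩
  · exact Or.inl (Or.inl ⟨h1, h2⟩)
  · rcases h1.eq_or_lt with h3 | h3
    · right
      subst h3
      rcases h2.eq_or_lt with h4 | h4
      · exact Or.inl ⟨h4, Nat.zero_le _⟩
      · obtain ⟨l, hl⟩ := (hN.child_iff _ _).1 h4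
        exact Or.inr ⟨l, Nat.zero_le _, hl⟩
    · exact Or.inl (Or.inr ⟨k, h3, h2⟩)

theorem sh_covers_finite (x : Sh N) : {u | @CovBy (Sh N) (shOrder hN).toLT x u}.Finite := by
  let _ := shOrder hN
  refine (Set.toFinite ({⟨x.p, x.n + 1⟩, ⟨child x.p x.n, 0⟩} : Set (Sh N))).subset ?_
  intro u hu
  have hu' : x ⋖ u := hu
  have h1 : x ⋖ ⟨x.p, x.n + 1⟩ := sh_covBy_succ hN x.p x.n
  have h2 : x ⋖ ⟨child x.p x.n, 0⟩ := sh_covBy_child hN x.p x.n
  rcases sh_above hN hu'.1 with h | h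
  · have h : (⟨x.p, x.n + 1⟩ : Sh N) ≤ u := h
    rcases h.eq_or_lt with h3 | h3
    · exact Or.inl h3.symm
    · exact absurd h3 (hu'.2 h1.1)
  · have h : (⟨child x.p x.n, 0⟩ : Sh N) ≤ u := h
    rcases h.eq_or_lt with h3 | h3
    · exact Or.inr h3.symm
    · exact absurd h3 (hu'.2 h2.1)

theorem sh_haus : @Haus (Sh N) (shOrder hN) := by
  let _ := shOrder hN
  intro x y hx hpred
  -- a limit node has the form `(p, 0)` with `p` a limit node of `N`
  have form : ∀ x : Sh N, LimTy x → x.n = 0 ∧ LimTy x.p := by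
    intro x hx
    have hn : x.n = 0 := by
      by_contra hn
      obtain ⟨m, hm⟩ := Nat.exists_eq_succ_of_ne_zero hn
      have hc := sh_covBy_succ hN x.p m
      have hxe : x = ⟨x.p, m + 1⟩ := Sh.ext rfl hm
      rw [← hxe] at hc
      obtain ⟨s, hs, hs'⟩ := hx.2 _ hc.1
      exact hc.2 hs hs'
    have hxe : x = ⟨x.p, 0⟩ := Sh.ext rfl hn
    refine ⟨hn, ?_, ?_⟩
    · obtain ⟨s, hs⟩ := hx.1
      rcases (sh_lt_iff hN).1 hs with ⟨h1, h2⟩ | ⟨k, h1, h2⟩
      · omega
      · exact ⟨s.p, (hN.lt_child _ _).trans_le h2⟩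
    · intro q hq
      obtain ⟨k, hk⟩ := (hN.child_iff _ _).1 hq
      rcases hk.eq_or_lt with h1 | h1
      · exfalso
        have hc := sh_covBy_child hN q k
        rw [h1, ← hxe] at hc
        obtain ⟨s, hs, hs'⟩ := hx.2 _ hc.1
        exact hc.2 hs hs'
      · exact ⟨child q k, hN.lt_child q k, h1⟩
  have hy : LimTy y := by
    refine ⟨?_, ?_⟩
    · obtain ⟨s, hs⟩ := hx.1
      exact ⟨s, (hpred s).1 hs⟩
    · intro s hs
      obtain ⟨s', h1, h2⟩ := hx.2 s ((hpred s).2 hs)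
      exact ⟨s', h1, (hpred s').1 h2⟩
  obtain ⟨hx1, hx2⟩ := form x hx
  obtain ⟨hy1, hy2⟩ := form y hy
  refine Sh.ext ?_ (hx1.trans hy1.symm)
  refine hN.haus x.p y.p hx2 ?_
  have main : ∀ x : Sh N, x.n = 0 → ∀ q, q < x.p ↔ (⟨q, 0⟩ : Sh N) < x := by
    intro x hx q
    constructor
    · intro hq
      obtain ⟨k, hk⟩ := (hN.child_iff _ _).1 hq
      exact (sh_lt_iff hN).2 (Or.inr ⟨k, Nat.zero_le _, hk⟩)
    · intro hq
      rcases (sh_lt_iff hN).1 hq with ⟨h1, h2⟩ | ⟨k, h1, h2⟩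
      · simp only at h2
        omega
      · exact (hN.lt_child _ _).trans_le h2
  intro q
  rw [main x hx1 q, main y hy1 q]
  exact hpred _

/-- antichains of the binary tree are countable -/
theorem sh_anti (A : Set (Sh N)) (hA : @IsAntichain (Sh N) (shOrder hN).le A) :
    A.Countable := by
  let _ := shOrder hN
  have h1 : A = ⋃ n : ℕ, {x ∈ A | x.n = n} := by
    ext x
    simp
  rw [h1]
  refine Set.countable_iUnion fun n => ?_
  let g : Sh N → N := fun x => child x.p n
  have key : ∀ x ∈ {x ∈ A | x.n = n}, ∀ y ∈ {x ∈ A | x.n = n}, g x ≤ g y → x = y := by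
    intro x hx y hy hle
    by_contra hne
    have hgx : x.p < g x := hN.lt_child _ _
    have hgy : y.p < g y := hN.lt_child _ _
    rcases hN.tree.comp x.p y.p (g y) (hgx.le.trans hle) hgy.le with hxy | hyx
    · rcases hxy.eq_or_lt with hE | hlt
      · exact hne (Sh.ext hE (hx.2.trans hy.2.symm))
      · -- `g x ≤ y.p`
        obtain ⟨k, hk⟩ := (hN.child_iff _ _).1 hlt
        have h2 := hN.child_inj x.p n k (g y) hle (hk.trans hgy.le)
        subst h2
        exact hA hx.1 hy.1 hne (Or.inr ⟨n, hx.2.le, hk⟩)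
    · rcases hyx.eq_or_lt with hE | hlt
      · exact hne (Sh.ext hE.symm (hx.2.trans hy.2.symm))
      · obtain ⟨k, hk⟩ := (hN.child_iff _ _).1 hlt
        have h2 := hN.child_inj y.p n k (g y) le_rfl (hk.trans (hgx.le.trans hle))
        subst h2
        exact hA hy.1 hx.1 (Ne.symm hne) (Or.inr ⟨n, hy.2.le, hk⟩)
  have hanti : IsAntichain (· ≤ ·) (g '' {x ∈ A | x.n = n}) := by
    rintro _ ⟨x, hx, rfl⟩ _ ⟨y, hy, rfl⟩ hne hle
    exact hne (by rw [key x hx y hy hle])
  exact Set.countable_of_injective_of_countable_image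
    (fun x hx y hy he => key x hx y hy he.le) (hN.anti _ hanti)

/-- predecessor sets of a normal tree are countable -/
theorem NTree.Iic_countable (p : N) : (Set.Iic p).Countable := by
  have h1 : Set.Iic p ⊆ insert p (Set.Iio p) := by
    intro q hq
    rcases (show q ≤ p from hq).eq_or_lt with h | h
    · exact Or.inl h
    · exact Or.inr h
  refine Set.Countable.mono h1 (Set.Countable.insert p ?_)
  -- for `q < p` take a child of `q` not below `p`
  have h2 : ∀ q, q < p → ∃ k, ¬ child q k ≤ p := by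
    intro q _
    by_contra hcon
    push Not at hcon
    exact absurd (hN.child_inj q 0 1 p (hcon 0) (hcon 1)) (by norm_num)
  choose! k hk using h2
  have key : ∀ q ∈ Set.Iio p, ∀ r ∈ Set.Iio p, child q (k q) ≤ child r (k r) → q = r := by
    intro q hq r hr hle
    have hq' : q < p := hq
    have hr' : r < p := hr
    rcases hN.tree.comp q r p hq'.le hr'.le with h | h
    · rcases h.eq_or_lt with h | h
      · exact h
      · exfalso
        obtain ⟨l, hl⟩ := (hN.child_iff _ _).1 h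
        have := hN.child_inj q (k q) l (child r (k r)) hle (hl.trans (hN.lt_child _ _).le)
        exact hk q hq' (this ▸ hl.trans hr'.le)
    · rcases h.eq_or_lt with h | h
      · exact h.symm
      · exfalso
        have h3 : child r (k r) ≤ q ∨ ¬ child r (k r) ≤ q := em _
        obtain ⟨l, hl⟩ := (hN.child_iff _ _).1 h
        have h4 : child r l ≤ child r (k r) := hl.trans ((hN.lt_child _ _).le.trans hle)
        have := hN.child_inj r l (k r) (child r (k r)) h4 le_rfl
        exact hk r hr' (this ▸ hl.trans hq'.le)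
  have hanti : IsAntichain (· ≤ ·) ((fun q => child q (k q)) '' Set.Iio p) := by
    rintro _ ⟨x, hx, rfl⟩ _ ⟨y, hy, rfl⟩ hne hle
    exact hne (by show child x (k x) = child y (k y); rw [key x hx y hy hle])
  exact Set.countable_of_injective_of_countable_image
    (fun x hx y hy he => key x hx y hy (le_of_eq he)) (hN.anti _ hanti)

theorem sh_Iic_countable (x : Sh N) : (@Set.Iic (Sh N) (shOrder hN).toPreorder x).Countable := by
  let _ := shOrder hN
  have h1 : Set.Iic x ⊆ (fun y : N × ℕ => (⟨y.1, y.2⟩ : Sh N)) '' (Set.Iic x.p ×ˢ Set.univ) := by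
    intro y hy
    exact ⟨(y.p, y.n), ⟨sh_le_p hN hy, trivial⟩, rfl⟩
  exact Set.Countable.mono h1
    (((NTree.Iic_countable hN x.p).prod (Set.countable_univ)).image _)

theorem sh_unc : ¬ Countable (Sh N) := by
  intro h
  exact hN.unc (Function.Injective.countable (f := fun p : N => (⟨p, 0⟩ : Sh N))
    fun p q h => congrArg Sh.p h)

end

end Pool.Agent.H20.SL
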