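import Pool.Agent.H20.SL.Union

/-!
# A normal Suslin tree refutes a positive answer
-/

set_option autoImplicit false

open Topology Ordinal Set

namespace Pool.Agent.H20.SL

variable {T : Type} [PartialOrder T]

/-- nodes with an immediate predecessor are isolated -/
theorem open_of_covBy (h : IsTree T) {a b : T} (hab : a ⋖ b) : IsOpen ({b} : Set (TT T)) := by
  intro t ht
  have ht' : t = b := ht
  subst ht'
  refine ⟨{a}, by simpa using hab.1, fun x hx hxs => ?_⟩
  have h1 : ¬ x ≤ a := hxs a (by simp)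
  by_contra hne
  exact h1 (le_of_covBy h hab (lt_of_le_of_ne hx hne))

/-- from a family on the compact space of a slim, uncountable, finitely branching tree to a
contradiction -/
theorem not_inCp (hCL : T_CL) (hCT : T_CT) (h : IsTree T) (hH : Haus T) (hS : Slim T h)
    (hunc : ¬ Countable T) (hfb : ∀ t : T, {u | t ⋖ u}.Finite) : ¬ InCpLindelof (XT T) := by
  intro hin
  obtain ⟨L, hL, hLc, hLs⟩ := exists_family hin
  obtain ⟨C, hC, hCO, hcov⟩ := hCL T h hH hS.1 L hL hLc fun t =>
    hLs _ _ (OnePoint.coe_ne_infty t)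
  exact hCT T h hH hS hunc hfb C hC hCO hcov

section

variable {N : Type} [PartialOrder N] {child : N → ℕ → N}

/-- iterated `0`-th children -/
def rr (child : N → ℕ → N) (q : N) : ℕ → N
  | 0 => q
  | j + 1 => child (rr child q j) 0

theorem not_positive (hCL : T_CL) (hCT : T_CT) (hN : NTree N child) :
    ¬ ArhangelskiiPositive := by
  intro hpos
  let _ := shOrder hN
  have hT := sh_tree hN
  have hH := sh_haus hN
  have hI : ∀ x : Sh N, (Set.Iic x).Countable := sh_Iic_countable hN
  have hanti : ∀ A : Set (Sh N), IsAntichain (· ≤ ·) A → A.Countable := sh_anti hN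
  have hS : Slim (Sh N) hT := slim_of hT hI hanti
  -- subtypes
  have hsubA : ∀ (A : Set (Sh N)) (B : Set A), IsAntichain (· ≤ ·) B → B.Countable := by
    intro A B hB
    have h1 : IsAntichain (· ≤ ·) ((fun a : A => (a : Sh N)) '' B) := by
      rintro _ ⟨a, ha, rfl⟩ _ ⟨b, hb, rfl⟩ hne hle
      exact hB ha hb (fun hE => hne (by rw [hE])) hle
    exact Set.countable_of_injective_of_countable_image
      (Subtype.val_injective.injOn) (hanti _ h1)
  let A : Set (Sh N) := {x | x.n = 0}
  let B : Set (Sh N) := closure (X := TT (Sh N)) {x : Sh N | 1 ≤ x.n}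
  have hBcl : IsClosed (X := TT (Sh N)) B := isClosed_closure
  have hAcl : IsClosed (X := TT (Sh N)) A := by
    refine (isOpen_compl_iff (X := TT (Sh N)) (s := A)).1 ?_
    intro t ht
    have htn : t.n ≠ 0 := ht
    obtain ⟨m, hm⟩ := Nat.exists_eq_succ_of_ne_zero htn
    have hc : (⟨t.p, m⟩ : Sh N) ⋖ t := by
      have := sh_covBy_succ hN t.p m
      have hte : t = ⟨t.p, m + 1⟩ := Sh.ext rfl hm
      rw [hte]
      exact this
    obtain ⟨F, hF, hF'⟩ := open_of_covBy hT hc t rfl
    refine ⟨F, hF, fun x hx hxs => ?_⟩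
    have := hF' x hx hxs
    have hxt : x = t := this
    rw [hxt]
    exact ht
  have hAB : ∀ t : Sh N, t ∈ A ∨ t ∈ B := by
    intro t
    by_cases h0 : t.n = 0
    · exact Or.inl h0
    · right
      exact subset_closure (X := TT (Sh N)) (show 1 ≤ t.n by omega)
  -- children are not in `B`
  have hchildB : ∀ q k, (⟨child q k, 0⟩ : Sh N) ∉ B := by
    intro q k hmem
    have hop : IsOpen ({(⟨child q k, 0⟩ : Sh N)} : Set (TT (Sh N))) :=
      open_of_covBy hT (sh_covBy_child hN q k)
    obtain ⟨y, hy1, hy2⟩ := (mem_closure_iff (X := TT (Sh N))).1 hmem _ hop rfl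
    have hy1' : y = (⟨child q k, 0⟩ : Sh N) := hy1
    have hy2' : 1 ≤ Sh.n (N := N) y := hy2
    rw [hy1'] at hy2'
    exact absurd hy2' (by simp)
  -- covers in `A`
  have hcA : ∀ w : A, {u : A | w ⋖ u}.Infinite := by
    rintro ⟨⟨p, n⟩, hp⟩
    have hn : n = 0 := hp
    subst hn
    refine Set.infinite_of_injective_forall_mem
      (f := fun k : ℕ => (⟨⟨child p k, 0⟩, rfl⟩ : A)) ?_ ?_
    · intro k l hkl
      have h1 : child p k = child p l := congrArg (fun x : A => (x : Sh N).p) hkl
      exact hN.child_inj p k l (child p l) h1.le le_rfl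
    · intro k
      refine ⟨(sh_lt_iff hN).2 (Or.inr ⟨k, Nat.zero_le _, le_rfl⟩), ?_⟩
      rintro ⟨⟨q, m⟩, hq⟩ h1 h2
      have hm : m = 0 := hq
      subst hm
      have h1' : (⟨p, 0⟩ : Sh N) < ⟨q, 0⟩ := h1
      have h2' : (⟨q, 0⟩ : Sh N) < ⟨child p k, 0⟩ := h2
      rcases (sh_lt_iff hN).1 h1' with ⟨-, h3⟩ | ⟨l, -, h3⟩
      · simp at h3
      rcases (sh_lt_iff hN).1 h2' with ⟨-, h4⟩ | ⟨m, -, h4⟩
      · simp at h4
      simp only at h3 h4
      have h5 : child p l ≤ child p k := h3.trans ((hN.lt_child q m).le.trans h4)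
      have h6 := hN.child_inj p l k _ h5 le_rfl
      subst h6
      exact absurd ((hN.lt_child q m).trans_le (h4.trans h3)) (lt_irrefl _)
  -- covers in `B`
  have hcB : ∀ w : B, {u : B | w ⋖ u}.Infinite := by
    rintro ⟨w, hw⟩
    let r : ℕ → N := rr child (child w.p w.n)
    have hr0 : r 0 = child w.p w.n := rfl
    have hrs : ∀ j, r (j + 1) = child (r j) 0 := fun j => rfl
    have hrlt : StrictMono r := strictMono_nat_of_lt_succ fun j => by
      rw [hrs]
      exact hN.lt_child _ _
    have hcov0 : w ⋖ (⟨r 0, 0⟩ : Sh N) := by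
      have := sh_covBy_child hN w.p w.n
      exact this
    have hcovs : ∀ j, (⟨r j, 0⟩ : Sh N) ⋖ ⟨r (j + 1), 0⟩ := fun j => by
      rw [hrs]
      exact sh_covBy_child hN (r j) 0
    have hcovu : ∀ j, (⟨r j, 0⟩ : Sh N) ⋖ ⟨r j, 1⟩ := fun j => sh_covBy_succ hN (r j) 0
    have hwr : ∀ j, w < (⟨r j, 0⟩ : Sh N) := by
      intro j
      induction j with
      | zero => exact hcov0.1
      | succ j ih => exact ih.trans (hcovs j).1
    have hbetween : ∀ j (c : Sh N), w < c → c ≤ ⟨r j, 0⟩ → ∃ i, c = ⟨r i, 0⟩ := by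
      intro j
      induction j with
      | zero =>
        intro c hc hc'
        rcases hc'.eq_or_lt with h1 | h1
        · exact ⟨0, h1⟩
        · exact absurd h1 (hcov0.2 hc)
      | succ j ih =>
        intro c hc hc'
        rcases hc'.eq_or_lt with h1 | h1
        · exact ⟨j + 1, h1⟩
        · exact ih c hc (le_of_covBy hT (hcovs j) h1)
    have hrB : ∀ i, (⟨r i, 0⟩ : Sh N) ∉ B := by
      intro i
      cases i with
      | zero => exact hchildB _ _
      | succ i =>
        rw [hrs]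
        exact hchildB _ _
    have huB : ∀ j, (⟨r j, 1⟩ : Sh N) ∈ B := fun j =>
      subset_closure (X := TT (Sh N)) (show 1 ≤ (⟨r j, 1⟩ : Sh N).n from le_rfl)
    refine Set.infinite_of_injective_forall_mem
      (f := fun j : ℕ => (⟨⟨r j, 1⟩, huB j⟩ : B)) ?_ ?_
    · intro k l hkl
      have h1 : r k = r l := congrArg (fun x : B => (x : Sh N).p) hkl
      exact hrlt.injective h1
    · intro j
      refine ⟨(hwr j).trans (hcovu j).1, ?_⟩
      rintro ⟨c, hc⟩ h1 h2
      have h2' : c < (⟨r j, 1⟩ : Sh N) := h2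
      obtain ⟨i, hi⟩ := hbetween j c h1 (le_of_covBy hT (hcovu j) h2')
      exact hrB i (hi ▸ hc)
  have hin := union_image hT hH A B hAcl hBcl hAB
    (fb_of_finBr (finBr_of (hT.subtype A) (hsubA A) hcA))
    (fb_of_finBr (finBr_of (hT.subtype B) (hsubA B) hcB)) hpos
  exact not_inCp hCL hCT hT hH hS (sh_unc hN) (sh_covers_finite hN) hin

end

end Pool.Agent.H20.SL
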