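import Pool.Agent.H20.SL.LIN

/-!
# The compact space of a tree, and embeddings into function spaces
-/

set_option autoImplicit false

open Topology Ordinal Set

namespace Pool.Agent.H20.SL

/-! ## Embeddings -/

/-- a compact space with a separating Lindelof family of continuous functions embeds -/
theorem emb {X : Type} [TopologicalSpace X] [CompactSpace X] (L : Set (X → ℝ))
    (hL : IsLindelof L) (hc : ∀ f ∈ L, Continuous f) (hs : ∀ x y, x ≠ y → ∃ f ∈ L, f x ≠ f y) :
    InCpTychonoffLindelof X := by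
  refine ⟨L, inferInstance, inferInstance, isLindelof_iff_lindelofSpace.1 hL, ?_⟩
  refine ⟨fun x => ⟨fun g => g.1 x, (continuous_apply x).comp continuous_subtype_val⟩, ?_⟩
  refine (Continuous.isClosedEmbedding ?_ ?_).isEmbedding
  · refine Continuous.subtype_mk ?_ _
    refine continuous_pi fun g => ?_
    exact hc g.1 g.2
  · intro x y hxy
    by_contra hne
    obtain ⟨f, hf, hfne⟩ := hs x y hne
    exact hfne (congrFun (congrArg Subtype.val hxy) ⟨f, hf⟩)

/-- conversely, an embedding gives a separating Lindelof family of continuous functions -/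
theorem exists_family {X : Type} [TopologicalSpace X] (h : InCpLindelof X) :
    ∃ L : Set (X → ℝ), IsLindelof L ∧ (∀ f ∈ L, Continuous f) ∧
      ∀ x y, x ≠ y → ∃ f ∈ L, f x ≠ f y := by
  obtain ⟨Z, _, hZ, e, he⟩ := h
  refine ⟨Set.range fun z : Z => fun x : X => (e x).1 z, ?_, ?_, ?_⟩
  · refine isLindelof_range ?_
    exact continuous_pi fun x => (e x).2
  · rintro _ ⟨z, rfl⟩
    exact (continuous_apply z).comp (continuous_subtype_val.comp he.continuous)
  · intro x y hxy
    by_contra hcon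
    push Not at hcon
    refine hxy (he.injective (Subtype.ext (funext fun z => ?_)))
    exact hcon _ ⟨z, rfl⟩

theorem inCpLindelof_of {X : Type} [TopologicalSpace X] (h : InCpTychonoffLindelof X) :
    InCpLindelof X := by
  obtain ⟨Y, hY, -, hL, e⟩ := h
  exact ⟨Y, hY, hL, e⟩

/-! ## The tree topology -/

variable {T : Type} [PartialOrder T]

theorem tt_isOpen_iff {U : Set (TT T)} : IsOpen U ↔ ∀ t : T, (t : TT T) ∈ U →
    ∃ F : Finset T, (∀ s ∈ F, s < t) ∧
      ∀ x : T, x ≤ t → (∀ s ∈ F, ¬ x ≤ s) → (x : TT T) ∈ U := Iff.rfl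

/-- the elements below `t` -/
def dn (t : T) : Set (TT T) := {x : T | x ≤ t}

theorem mem_dn_self (t : T) : (t : TT T) ∈ dn t := le_refl (α := T) t

/-- the node `t` as a point of the compact space -/
def inc (t : T) : XT T := OnePoint.some (X := TT T) t

omit [PartialOrder T] in
theorem inc_injective : Function.Injective (inc : T → XT T) := OnePoint.coe_injective

theorem dn_open (t : T) : IsOpen (dn t) := by
  intro s hs
  exact ⟨∅, by simp, fun x hx _ => le_trans hx (show s ≤ t from hs)⟩

theorem dn_closed (h : IsTree T) (hH : Haus T) (t : T) : IsClosed (dn t) := by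
  classical
  rw [← isOpen_compl_iff]
  intro x hx
  have hx' : ¬ x ≤ t := hx
  by_contra hcon
  push Not at hcon
  -- `x` has predecessors and all of them are below `t`
  have h1 : ∃ s, s < x := by
    by_contra h0
    push Not at h0
    obtain ⟨y, hy, -, hyt⟩ := hcon ∅ (by simp)
    have hyt' : y ≤ t := not_not.1 hyt
    rcases (show y ≤ x from hy).eq_or_lt with hE | hlt
    · exact hx' (hE ▸ hyt')
    · exact h0 y hlt
  have h2 : ∀ s, s < x → ∃ y, s < y ∧ y < x ∧ y ≤ t := by
    intro s hs
    obtain ⟨y, hy, hys, hyt⟩ := hcon {s} (by simpa using hs)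
    have hyt' : y ≤ t := not_not.1 hyt
    have hys' : ¬ y ≤ s := hys s (by simp)
    refine ⟨y, ?_, ?_, hyt'⟩
    · rcases h.comp s y x hs.le hy with h3 | h3
      · exact lt_of_le_of_ne h3 fun hE => hys' hE.ge
      · exact absurd h3 hys'
    · exact lt_of_le_of_ne hy fun hE => hx' (hE ▸ hyt')
  have hlim : LimTy x := ⟨h1, fun s hs => by
    obtain ⟨y, hy1, hy2, -⟩ := h2 s hs
    exact ⟨y, hy1, hy2⟩⟩
  have h3 : ∀ s, s < x → s ≤ t := fun s hs => by
    obtain ⟨y, hy1, -, hy3⟩ := h2 s hs
    exact hy1.le.trans hy3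
  obtain ⟨z, ⟨hz1, hz2⟩, hz3⟩ := h.wf.has_min {z | z ≤ t ∧ ¬ z < x} ⟨t, le_rfl, by
    intro htx
    obtain ⟨y, hy1, -, hy3⟩ := h2 t htx
    exact absurd (hy1.trans_le hy3) (lt_irrefl _)⟩
  have hE : x = z := by
    refine hH x z hlim fun s => ⟨fun hs => ?_, fun hs => ?_⟩
    · rcases h.comp s z t (h3 s hs) hz1 with h4 | h4
      · exact lt_of_le_of_ne h4 fun hE => hz2 (hE ▸ hs)
      · exact absurd (h4.trans_lt hs) hz2
    · by_contra hcon'
      exact hz3 s ⟨hs.le.trans hz1, hcon'⟩ hs
  exact hx' (hE ▸ hz1)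

theorem dn_compact (h : IsTree T) (t : T) : IsCompact (dn t) := by
  classical
  induction t using h.wf.induction with
  | _ t ih =>
    refine isCompact_of_finite_subcover ?_
    intro ι U hU hcov
    have htd : (t : TT T) ∈ dn t := mem_dn_self t
    obtain ⟨i0, hi0⟩ := Set.mem_iUnion.1 (hcov htd)
    obtain ⟨F, hF, hF'⟩ := hU i0 t hi0
    have hK : IsCompact (⋃ s ∈ F, dn s) := F.isCompact_biUnion fun s hs => ih s (hF s hs)
    obtain ⟨r, hr⟩ := hK.elim_finite_subcover U hU (by
      refine Set.Subset.trans ?_ hcov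
      intro x hx
      simp only [Set.mem_iUnion] at hx
      obtain ⟨s, hs, hxs⟩ := hx
      exact le_trans (α := T) hxs (hF s hs).le)
    refine ⟨insert i0 r, ?_⟩
    intro x hx
    by_cases hxF : ∃ s ∈ F, x ∈ dn s
    · obtain ⟨s, hs, hxs⟩ := hxF
      have := hr (Set.mem_biUnion hs hxs)
      simp only [Set.mem_iUnion] at this ⊢
      obtain ⟨i, hi, hxi⟩ := this
      exact ⟨i, Finset.mem_insert_of_mem hi, hxi⟩
    · simp only [Set.mem_iUnion]
      exact ⟨i0, Finset.mem_insert_self _ _, hF' x hx fun s hs hxs => hxF ⟨s, hs, hxs⟩⟩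

theorem tt_t2 (h : IsTree T) (hH : Haus T) : T2Space (TT T) := by
  have key : ∀ a b : T, a ≠ b → ∃ u v : Set (TT T), IsOpen u ∧ IsOpen v ∧ (a : TT T) ∈ u ∧
      (b : TT T) ∈ v ∧ Disjoint u v := by
    intro a b hab
    by_cases hba : b ≤ a
    · have hab' : ¬ a ≤ b := fun h' => hab (le_antisymm h' hba)
      exact ⟨(dn b)ᶜ, dn b, (dn_closed h hH b).isOpen_compl, dn_open b, hab', mem_dn_self b,
        disjoint_compl_left⟩
    · exact ⟨dn a, (dn a)ᶜ, dn_open a, (dn_closed h hH a).isOpen_compl, mem_dn_self a, hba,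
        disjoint_compl_right⟩
  exact ⟨fun a b hab => key a b hab⟩

theorem tt_wlc (h : IsTree T) : WeaklyLocallyCompactSpace (TT T) :=
  ⟨fun t => ⟨dn (T := T) t, dn_compact (T := T) h t, (dn_open (T := T) t).mem_nhds
    (mem_dn_self (T := T) t)⟩⟩

theorem xt_t2 (h : IsTree T) (hH : Haus T) : T2Space (XT T) := by
  have := tt_t2 h hH
  have := tt_wlc h
  infer_instance

/-! ## The functions on the compact space -/

/-- the characteristic function of the elements below `t` -/
noncomputable def chi (t : T) : XT T → ℝ :=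
  ((fun x : TT T => (x : XT T)) '' dn t).indicator 1

theorem chi_continuous (h : IsTree T) (hH : Haus T) (t : T) : Continuous (chi t) := by
  unfold chi
  refine IsClopen.continuous_indicator ⟨?_, ?_⟩ continuous_const
  · exact OnePoint.isClosed_image_coe.2 ⟨dn_closed h hH t, dn_compact h t⟩
  · exact OnePoint.isOpen_image_coe.2 (dn_open t)

theorem chi_inc (t x : T) : chi t (inc x) = pf t x := by
  classical
  unfold chi
  rcases pf_apply t x with ⟨h1, h2⟩ | ⟨h1, h2⟩
  · have hx : inc x ∈ (fun x : TT T => (x : XT T)) '' dn t := ⟨x, h2, rfl⟩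
    rw [h1, Set.indicator_of_mem hx]
    rfl
  · rw [h1, Set.indicator_of_notMem]
    rintro ⟨y, hy, hyx⟩
    have hyx' : y = x := OnePoint.coe_injective hyx
    exact h2 (hyx' ▸ hy)

theorem chi_infty (t : T) : chi t (OnePoint.infty : XT T) = 0 := by
  unfold chi
  rw [Set.indicator_of_notMem]
  rintro ⟨y, -, hy⟩
  exact OnePoint.coe_ne_infty y hy

/-- the closed subspace over `A` -/
def XA (A : Set (TT T)) : Set (XT T) := {x | ∀ t : TT T, x = (t : XT T) → t ∈ A}

omit [PartialOrder T] in
theorem xa_eq (A : Set (TT T)) : XA A = ((fun x : TT T => (x : XT T)) '' Aᶜ)ᶜ := by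
  ext x
  constructor
  · rintro hx ⟨t, ht, rfl⟩
    exact ht (hx t rfl)
  · intro hx t ht
    by_contra htA
    exact hx ⟨t, htA, ht.symm⟩

theorem xa_closed {A : Set (TT T)} (hA : IsClosed A) : IsClosed (XA A) := by
  have h1 := xa_eq A
  rw [h1]
  exact (OnePoint.isOpen_image_coe.2 hA.isOpen_compl).isClosed_compl

end Pool.Agent.H20.SL
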