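import Pool.Agent.H20.SL.Top
import Pool.Agent.H20.SL.Sharp
import Pool.Agent.H20.SL.LIN2

/-!
# Unions of two closed subspaces, and the binary tree of a normal Suslin tree
-/

set_option autoImplicit false

open Topology Ordinal Set

namespace Pool.Agent.H20.SL

/-- a separating Lindelof family of continuous functions -/
def Fam (X : Type) [TopologicalSpace X] : Prop := ∃ L : Set (X → ℝ), IsLindelof L ∧
  (∀ f ∈ L, Continuous f) ∧ ∀ x y, x ≠ y → ∃ f ∈ L, f x ≠ f y

theorem fam_sum {X Y : Type} [TopologicalSpace X] [TopologicalSpace Y] (hX : Fam X)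
    (hY : Fam Y) : Fam (X ⊕ Y) := by
  obtain ⟨L, hL, hLc, hLs⟩ := hX
  obtain ⟨M, hM, hMc, hMs⟩ := hY
  have c1 : Continuous fun f : X → ℝ => (Sum.elim f (fun _ : Y => (0 : ℝ))) := by
    refine continuous_pi ?_
    rintro (x | y)
    · exact continuous_apply x
    · exact continuous_const
  have c2 : Continuous fun f : Y → ℝ => (Sum.elim (fun _ : X => (0 : ℝ)) f) := by
    refine continuous_pi ?_
    rintro (x | y)
    · exact continuous_const
    · exact continuous_apply y
  refine ⟨((fun f : X → ℝ => (Sum.elim f (fun _ : Y => (0 : ℝ)))) '' L ∪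
    (fun f : Y → ℝ => (Sum.elim (fun _ : X => (0 : ℝ)) f)) '' M) ∪
    {Sum.elim (fun _ : X => (1 : ℝ)) (fun _ : Y => (0 : ℝ))}, ?_, ?_, ?_⟩
  · exact ((hL.image c1).union (hM.image c2)).union isLindelof_singleton
  · rintro _ ((⟨f, hf, rfl⟩ | ⟨f, hf, rfl⟩) | rfl)
    · exact (hLc f hf).sumElim continuous_const
    · exact continuous_const.sumElim (hMc f hf)
    · exact continuous_const.sumElim continuous_const
  · rintro (x | x) (y | y) hxy
    · obtain ⟨f, hf, hfne⟩ := hLs x y fun h => hxy (by rw [h])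
      exact ⟨_, Or.inl (Or.inl ⟨f, hf, rfl⟩), by simpa using hfne⟩
    · exact ⟨_, Or.inr rfl, by simp⟩
    · exact ⟨_, Or.inr rfl, by simp⟩
    · obtain ⟨f, hf, hfne⟩ := hMs x y fun h => hxy (by rw [h])
      exact ⟨_, Or.inl (Or.inr ⟨f, hf, rfl⟩), by simpa using hfne⟩

variable {T : Type} [PartialOrder T]

omit [PartialOrder T] in
theorem xa_cases {A : Set T} (x : XA (T := T) A) :
    (x : XT T) = OnePoint.infty ∨ ∃ a : T, a ∈ A ∧ (x : XT T) = inc a := by
  obtain ⟨x, hx⟩ := x
  induction x using OnePoint.rec with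
  | infty => exact Or.inl rfl
  | coe a => exact Or.inr ⟨a, hx a rfl, rfl⟩

/-- the family of path functions on the subspace over `A` -/
theorem fam_xa (h : IsTree T) (hH : Haus T) (A : Set T) (hF : FB A) : Fam (XA (T := T) A) := by
  classical
  have hL := lin2 A (h.subtype A) hF
  let Φ : (A → ℝ) → XA (T := T) A → ℝ := fun φ x =>
    if hx : ∃ a : A, (x : XT T) = inc (a : T) then φ hx.choose else 0
  have hΦ : Continuous Φ := by
    refine continuous_pi fun x => ?_
    by_cases hx : ∃ a : A, (x : XT T) = inc (a : T)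
    · simp only [Φ, dif_pos hx]
      exact continuous_apply _
    · simp only [Φ, dif_neg hx]
      exact continuous_const
  have hΦinc : ∀ (φ : A → ℝ) (a : A) (x : XA (T := T) A), (x : XT T) = inc (a : T) →
      Φ φ x = φ a := by
    intro φ a x hx
    have hex : ∃ a : A, (x : XT T) = inc (a : T) := ⟨a, hx⟩
    simp only [Φ, dif_pos hex]
    congr 1
    exact Subtype.ext (inc_injective (hex.choose_spec.symm.trans hx))
  have hΦinf : ∀ (φ : A → ℝ) (x : XA (T := T) A), (x : XT T) = OnePoint.infty →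
      Φ φ x = 0 := by
    intro φ x hx
    have hex : ¬ ∃ a : A, (x : XT T) = inc (a : T) := by
      rintro ⟨a, ha⟩
      rw [hx] at ha
      exact OnePoint.infty_ne_coe _ ha
    simp only [Φ, dif_neg hex]
  have hpf : ∀ a b : A, pf a b = pf (a : T) (b : T) := by
    intro a b
    rcases pf_apply a b with ⟨h1, h2⟩ | ⟨h1, h2⟩ <;>
      rcases pf_apply (a : T) (b : T) with ⟨h3, h4⟩ | ⟨h3, h4⟩
    · rw [h1, h3]
    · exact absurd h2 h4
    · exact absurd h4 h2
    · rw [h1, h3]
  have hchi : ∀ a : A, Φ (pf a) = fun x : XA (T := T) A => chi (a : T) (x : XT T) := by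
    intro a
    funext x
    rcases xa_cases x with hx | ⟨b, hb, hx⟩
    · rw [hΦinf _ _ hx, hx, chi_infty]
    · rw [hΦinc _ ⟨b, hb⟩ x hx, hx, chi_inc, hpf]
  refine ⟨Φ '' (insert (0 : A → ℝ) (Set.range fun t : A => (Set.Iic t).indicator (1 : A → ℝ))),
    hL.image hΦ, ?_, ?_⟩
  · rintro _ ⟨φ, rfl | ⟨a, rfl⟩, rfl⟩
    · have : Φ 0 = fun _ => 0 := by
        funext x
        rcases xa_cases x with hx | ⟨b, hb, hx⟩
        · exact hΦinf _ _ hx
        · rw [hΦinc _ ⟨b, hb⟩ x hx]
          rfl
      rw [this]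
      exact continuous_const
    · show Continuous (Φ (pf a))
      rw [hchi a]
      exact (chi_continuous h hH _).comp continuous_subtype_val
  · intro x y hxy
    have hxy' : (x : XT T) ≠ (y : XT T) := fun h => hxy (Subtype.ext h)
    have key : ∀ a : A, chi (a : T) (x : XT T) ≠ chi (a : T) (y : XT T) →
        ∃ f ∈ Φ '' (insert (0 : A → ℝ)
          (Set.range fun t : A => (Set.Iic t).indicator (1 : A → ℝ))), f x ≠ f y := by
      intro a ha
      refine ⟨Φ (pf a), ⟨pf a, Or.inr ⟨a, rfl⟩, rfl⟩, ?_⟩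
      rw [hchi a]
      exact ha
    have hself : ∀ a : T, chi a (inc a) = 1 := by
      intro a
      rw [chi_inc]
      rcases pf_apply a a with ⟨h1, -⟩ | ⟨-, h2⟩
      · exact h1
      · exact absurd le_rfl h2
    rcases xa_cases x with hx | ⟨a, ha, hx⟩ <;> rcases xa_cases y with hy | ⟨b, hb, hy⟩
    · exact absurd (hx.trans hy.symm) hxy'
    · refine key ⟨b, hb⟩ ?_
      rw [hx, hy, chi_infty]
      show (0 : ℝ) ≠ chi b (inc b)
      rw [hself]
      norm_num
    · refine key ⟨a, ha⟩ ?_
      rw [hx, hy, chi_infty]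
      show chi a (inc a) ≠ 0
      rw [hself]
      norm_num
    · have hab : (a : T) ≠ (b : T) := by
        intro hE
        apply hxy'
        rw [hx, hy]
        exact congrArg inc hE
      have main : ∀ a b : T, ¬ b ≤ a → chi a (inc a) ≠ chi a (inc b) := by
        intro a b hba
        rw [hself, chi_inc]
        rcases pf_apply a b with ⟨-, h2⟩ | ⟨h1, -⟩
        · exact absurd h2 hba
        · rw [h1]
          norm_num
      have main2 : ∀ a b : T, a ≠ b → chi a (inc a) ≠ chi a (inc b) ∨
          chi b (inc a) ≠ chi b (inc b) := by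
        intro a b hab
        by_cases hba : b ≤ a
        · exact Or.inr (main b a fun h' => hab (le_antisymm h' hba)).symm
        · exact Or.inl (main a b hba)
      rcases main2 a b hab with h1 | h1
      · refine key ⟨a, ha⟩ ?_
        rw [hx, hy]
        exact h1
      · refine key ⟨b, hb⟩ ?_
        rw [hx, hy]
        exact h1

theorem fb_of_finBr {P : Type} [PartialOrder P] (h : FinBr P) : FB P :=
  fun W h1 h2 _ => h W h1 h2

/-- unions of two closed subspaces -/
theorem union_image (h : IsTree T) (hH : Haus T) (A B : Set T)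
    (hA : IsClosed (X := TT T) A) (hB : IsClosed (X := TT T) B) (hAB : ∀ t, t ∈ A ∨ t ∈ B)
    (hFA : FB A) (hFB : FB B) (hpos : ArhangelskiiPositive) : InCpLindelof (XT T) := by
  have := xt_t2 h hH
  have h1 : CompactSpace (XA (T := T) A) := isCompact_iff_compactSpace.1 (xa_closed hA).isCompact
  have h2 : CompactSpace (XA (T := T) B) := isCompact_iff_compactSpace.1 (xa_closed hB).isCompact
  obtain ⟨L, hL, hLc, hLs⟩ := fam_sum (fam_xa h hH A hFA) (fam_xa h hH B hFB)
  refine hpos (XA (T := T) A ⊕ XA (T := T) B) (XT T) inferInstance inferInstance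
    (emb L hL hLc hLs) inferInstance ⟨Sum.elim Subtype.val Subtype.val,
      continuous_subtype_val.sumElim continuous_subtype_val, ?_⟩
  intro x
  have hx : x ∈ XA (T := T) A ∨ x ∈ XA (T := T) B := by
    induction x using OnePoint.rec with
    | infty => exact Or.inl fun t ht => absurd ht (OnePoint.infty_ne_coe _)
    | coe a =>
      rcases hAB a with ha | ha
      · exact Or.inl fun t ht => (OnePoint.coe_injective ht) ▸ ha
      · exact Or.inr fun t ht => (OnePoint.coe_injective ht) ▸ ha
  rcases hx with hx | hx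
  · exact ⟨Sum.inl ⟨x, hx⟩, rfl⟩
  · exact ⟨Sum.inr ⟨x, hx⟩, rfl⟩

end Pool.Agent.H20.SL
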